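import Mathlib

/-!
A finite colouring of the circle that is nonrepetitive along every rotation orbit by a
(polynomially) badly approximable angle.
-/

set_option autoImplicit false

namespace Pool.Agent.H175R3.CircleCol

open Finset

/-- `α` is polynomially badly approximable -/
def BA (C : ℕ) (α : ℝ) : Prop :=
  ∀ n : ℕ, 0 < n → ∀ m : ℤ, 1 / ((C : ℝ) * (n : ℝ) ^ 4) ≤ |(n : ℝ) * α - m|

/-! ### Floor sequences are determined by two moments -/

lemma sign_zero (M r : ℕ) (e : ℕ → ℤ) (h1 : ∀ i < M, i < r → e i ≤ 0)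
    (h2 : ∀ i < M, r ≤ i → 0 ≤ e i) (s0 : ∑ i ∈ range M, e i = 0)
    (s1 : ∑ i ∈ range M, (i : ℤ) * e i = 0) : ∀ i < M, e i = 0 := by
  have hs : ∑ i ∈ range M, ((i : ℤ) - r) * e i = 0 := by
    have : ∑ i ∈ range M, ((i : ℤ) - r) * e i =
        ∑ i ∈ range M, (i : ℤ) * e i - r * ∑ i ∈ range M, e i := by
      rw [mul_sum, ← sum_sub_distrib]
      exact sum_congr rfl fun i _ => by ring
    rw [this, s0, s1]; simp
  have hnn : ∀ i ∈ range M, 0 ≤ ((i : ℤ) - r) * e i := by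
    intro i hi
    rw [mem_range] at hi
    rcases lt_or_ge i r with h | h
    · exact mul_nonneg_of_nonpos_of_nonpos (by omega) (h1 i hi h)
    · exact mul_nonneg (by omega) (h2 i hi h)
  have hz := (sum_eq_zero_iff_of_nonneg hnn).1 hs
  have hne : ∀ i < M, i ≠ r → e i = 0 := by
    intro i hi hir
    have := hz i (mem_range.2 hi)
    rcases mul_eq_zero.1 this with h | h
    · omega
    · exact h
  intro i hi
  by_cases hir : i = r
  · subst hir
    rw [sum_eq_single_of_mem i (mem_range.2 hi)] at s0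
    · exact s0
    · intro j hj hji
      exact hne j (mem_range.1 hj) hji
  · exact hne i hi hir

lemma floors_eq_aux (M : ℕ) (X A X' A' : ℝ) (hA : A' ≤ A)
    (s0 : ∑ i ∈ range M, ⌊X + (i : ℝ) * A⌋ = ∑ i ∈ range M, ⌊X' + (i : ℝ) * A'⌋)
    (s1 : ∑ i ∈ range M, (i : ℤ) * ⌊X + (i : ℝ) * A⌋ =
      ∑ i ∈ range M, (i : ℤ) * ⌊X' + (i : ℝ) * A'⌋) :
    ∀ i < M, ⌊X + (i : ℝ) * A⌋ = ⌊X' + (i : ℝ) * A'⌋ := by
  obtain ⟨r, hr1, hr2⟩ : ∃ r : ℕ, (∀ i < M, i < r → X + (i : ℝ) * A ≤ X' + (i : ℝ) * A') ∧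
      (∀ i < M, r ≤ i → X' + (i : ℝ) * A' ≤ X + (i : ℝ) * A) := by
    by_cases hex : ∃ i : ℕ, X' + (i : ℝ) * A' ≤ X + (i : ℝ) * A
    · refine ⟨Nat.find hex, fun i _ hi => ?_, fun i _ hi => ?_⟩
      · exact (not_le.1 (Nat.find_min hex hi)).le
      · have h1 := Nat.find_spec hex
        have h2 : ((Nat.find hex : ℕ) : ℝ) ≤ i := by exact_mod_cast hi
        nlinarith
    · push Not at hex
      exact ⟨M, fun i _ _ => (hex i).le, fun i hi hi' => absurd hi (by omega)⟩
  have := sign_zero M r (fun i => ⌊X + (i : ℝ) * A⌋ - ⌊X' + (i : ℝ) * A'⌋)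
    (fun i hi hir => by
      have := Int.floor_le_floor (hr1 i hi hir)
      omega)
    (fun i hi hir => by
      have := Int.floor_le_floor (hr2 i hi hir)
      omega)
    (by rw [sum_sub_distrib, s0, sub_self])
    (by
      have : ∑ i ∈ range M, (i : ℤ) * (⌊X + (i : ℝ) * A⌋ - ⌊X' + (i : ℝ) * A'⌋) =
          ∑ i ∈ range M, (i : ℤ) * ⌊X + (i : ℝ) * A⌋ -
            ∑ i ∈ range M, (i : ℤ) * ⌊X' + (i : ℝ) * A'⌋ := by
        rw [← sum_sub_distrib]
        exact sum_congr rfl fun i _ => by ring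
      rw [this, s1, sub_self])
  intro i hi
  have := this i hi
  omega

lemma floors_eq (M : ℕ) (X A X' A' : ℝ)
    (s0 : ∑ i ∈ range M, ⌊X + (i : ℝ) * A⌋ = ∑ i ∈ range M, ⌊X' + (i : ℝ) * A'⌋)
    (s1 : ∑ i ∈ range M, (i : ℤ) * ⌊X + (i : ℝ) * A⌋ =
      ∑ i ∈ range M, (i : ℤ) * ⌊X' + (i : ℝ) * A'⌋) :
    ∀ i < M, ⌊X + (i : ℝ) * A⌋ = ⌊X' + (i : ℝ) * A'⌋ := by
  rcases le_total A' A with h | h
  · exact floors_eq_aux M X A X' A' h s0 s1
  · exact fun i hi => (floors_eq_aux M X' A' X A h s0.symm s1.symm i hi).symm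

/-! ### Cells -/

/-- the cell of `y` at resolution `1 / D` -/
noncomputable def cell (D : ℕ) (y : ℝ) : ZMod D := ((⌊(D : ℝ) * y⌋ : ℤ) : ZMod D)

def CellFn (D : ℕ) (P : ℝ → Option Bool) : Prop := ∀ y y', cell D y = cell D y' → P y = P y'

lemma cell_refine {D E : ℕ} (hE : 0 < E) {y y' : ℝ} (h : cell (D * E) y = cell (D * E) y') :
    cell D y = cell D y' := by
  unfold cell at h ⊢
  rw [ZMod.intCast_eq_intCast_iff_dvd_sub] at h ⊢
  have hE' : (E : ℝ) ≠ 0 := by positivity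
  have key : ∀ z : ℝ, ⌊(D : ℝ) * z⌋ = ⌊((D * E : ℕ) : ℝ) * z⌋ / (E : ℤ) := by
    intro z
    rw [← Int.floor_div_natCast]
    congr 1
    push_cast
    field_simp
  rw [key y, key y']
  obtain ⟨t, ht⟩ := h
  have hE'' : (E : ℤ) ≠ 0 := by exact_mod_cast hE.ne'
  have e1 : ⌊((D * E : ℕ) : ℝ) * y'⌋ = ⌊((D * E : ℕ) : ℝ) * y⌋ + (D * t) * E := by
    have : ((D * E : ℕ) : ℤ) * t = (D * t) * E := by push_cast; ring
    linarith
  rw [e1, Int.add_mul_ediv_right _ _ hE'']
  exact ⟨t, by ring⟩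

lemma cell_int (D : ℕ) (y : ℝ) (m : ℤ) : cell D (y + m) = cell D y := by
  unfold cell
  have : (D : ℝ) * (y + m) = D * y + ((D * m : ℤ) : ℝ) := by push_cast; ring
  rw [this, Int.floor_add_intCast]
  push_cast
  simp

lemma cell_ne {D : ℕ} (hD : 0 < D) {y y' : ℝ} (h : ∀ m : ℤ, 1 / (D : ℝ) ≤ |y - y' - m|) :
    cell D y ≠ cell D y' := by
  intro he
  unfold cell at he
  rw [ZMod.intCast_eq_intCast_iff_dvd_sub] at he
  obtain ⟨t, ht⟩ := he
  have hD' : (0 : ℝ) < D := by exact_mod_cast hD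
  have h1 := h (-t)
  have h2 := Int.floor_le ((D : ℝ) * y)
  have h3 := Int.lt_floor_add_one ((D : ℝ) * y)
  have h4 := Int.floor_le ((D : ℝ) * y')
  have h5 := Int.lt_floor_add_one ((D : ℝ) * y')
  have ht' : ((⌊(D : ℝ) * y'⌋ : ℤ) : ℝ) - ((⌊(D : ℝ) * y⌋ : ℤ) : ℝ) = D * t := by exact_mod_cast ht
  have h6 : |(D : ℝ) * (y - y' + t)| < 1 := by
    rw [abs_lt]
    constructor <;> nlinarith
  rw [abs_mul, abs_of_pos hD'] at h6
  have h7 : |y - y' + t| < 1 / D := by
    rw [lt_div_iff₀ hD']; linarith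
  have h8 : y - y' - ((-t : ℤ) : ℝ) = y - y' + t := by push_cast; ring
  rw [h8] at h1
  linarith

/-- different points of an orbit lie in different cells -/
lemma orbit_cell_ne {C D M : ℕ} (hC : 0 < C) (hD : C * M ^ 4 ≤ D) {α : ℝ} (hα : BA C α) (x : ℝ)
    {i j : ℕ} (hi : i < M) (hj : j < M) (hij : i ≠ j) :
    cell D (x + (i : ℝ) * α) ≠ cell D (x + (j : ℝ) * α) := by
  have hMpos : 0 < M := by omega
  have hDpos : 0 < D := lt_of_lt_of_le (by positivity) hD
  have key : ∀ i j : ℕ, i < M → j < M → j < i →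
      cell D (x + (i : ℝ) * α) ≠ cell D (x + (j : ℝ) * α) := by
    intro i j hi hj hji
    apply cell_ne hDpos
    intro m
    have h1 := hα (i - j) (by omega) m
    have h2 : x + (i : ℝ) * α - (x + (j : ℝ) * α) - m = ((i - j : ℕ) : ℝ) * α - m := by
      rw [Nat.cast_sub hji.le]; ring
    rw [h2]
    refine le_trans ?_ h1
    have h3 : (0 : ℝ) < (C : ℝ) * ((i - j : ℕ) : ℝ) ^ 4 := by
      have : 0 < i - j := by omega
      positivity
    apply one_div_le_one_div_of_le h3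
    have h4 : C * (i - j) ^ 4 ≤ D :=
      le_trans (Nat.mul_le_mul_left _ (Nat.pow_le_pow_left (by omega) 4)) hD
    exact_mod_cast h4
  rcases lt_or_gt_of_ne hij with h | h
  · exact (key j i hj hi h).symm
  · exact key i j hi hj h

/-! ### Counting -/

lemma count_pairs {K : Type} [Fintype K] [DecidableEq K] (N : ℕ) (a b : Fin N → K)
    (hab : Function.Injective (Sum.elim a b)) (w : Fin N → Option Bool × Option Bool)
    (S : Finset (K → Option Bool)) (hS : ∀ q ∈ S, ∀ j, (q (a j), q (b j)) ≠ w j) :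
    S.card * 9 ^ N ≤ 8 ^ N * 3 ^ Fintype.card K := by
  classical
  let R := {c : K // c ∉ Set.range (Sum.elim a b)}
  have hR : Fintype.card R + 2 * N = Fintype.card K := by
    have h1 : Fintype.card R = Fintype.card K - Fintype.card (Set.range (Sum.elim a b)) :=
      Fintype.card_compl_set (Set.range (Sum.elim a b))
    have h2 : Fintype.card (Set.range (Sum.elim a b)) = 2 * N := by
      rw [Set.card_range_of_injective hab]
      simp; ring
    have h3 : Fintype.card (Set.range (Sum.elim a b)) ≤ Fintype.card K :=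
      Fintype.card_subtype_le _
    omega
  let f : (K → Option Bool) → (Fin N → Option Bool × Option Bool) × (R → Option Bool) :=
    fun q => (fun j => (q (a j), q (b j)), fun c => q c.1)
  have hf : Function.Injective f := by
    intro q q' h
    simp only [f, Prod.mk.injEq] at h
    funext c
    by_cases hc : c ∈ Set.range (Sum.elim a b)
    · obtain ⟨s, rfl⟩ := hc
      rcases s with j | j
      · have := congrFun h.1 j
        simp only [Prod.mk.injEq] at this
        exact this.1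
      · have := congrFun h.1 j
        simp only [Prod.mk.injEq] at this
        exact this.2
    · exact congrFun h.2 ⟨c, hc⟩
  have hmem : S.image f ⊆ (Fintype.piFinset fun j => univ.erase (w j)) ×ˢ univ := by
    intro z hz
    rw [mem_image] at hz
    obtain ⟨q, hq, rfl⟩ := hz
    rw [mem_product]
    refine ⟨?_, mem_univ _⟩
    rw [Fintype.mem_piFinset]
    intro j
    rw [mem_erase]
    exact ⟨hS q hq j, mem_univ _⟩
  have hcard := card_le_card hmem
  rw [card_image_of_injective _ hf, card_product, Fintype.card_piFinset, card_univ,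
    Fintype.card_fun] at hcard
  have h9 : ∀ j, (univ.erase (w j)).card = 8 := by
    intro j
    rw [card_erase_of_mem (mem_univ _), card_univ]
    rfl
  simp only [h9, prod_const, card_univ, Fintype.card_fin] at hcard
  have h3 : Fintype.card (Option Bool) = 3 := rfl
  rw [h3] at hcard
  calc S.card * 9 ^ N ≤ (8 ^ N * 3 ^ Fintype.card R) * 9 ^ N := Nat.mul_le_mul_right _ hcard
    _ = 8 ^ N * 3 ^ Fintype.card K := by
      rw [← hR, pow_add, pow_mul]; ring

/-! ### One step of the construction -/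

/-- every orbit segment of length `N` contains an uncoloured point -/
def Alive (C N : ℕ) (P : ℝ → Option Bool) : Prop :=
  ∀ α, BA C α → ∀ x : ℝ, ∃ i < N, P (x + (i : ℝ) * α) = none

/-- the refinement of `P` by the colours `q` of the cells of level `D` -/
noncomputable def refi (P : ℝ → Option Bool) (D : ℕ) (q : ZMod D → Option Bool) (y : ℝ) :
    Option Bool :=
  match P y with
  | none => q (cell D y)
  | some c => some c

lemma refi_of_none {P : ℝ → Option Bool} {D : ℕ} {q : ZMod D → Option Bool} {y : ℝ}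
    (h : P y = none) : refi P D q y = q (cell D y) := by
  simp [refi, h]

lemma refi_of_some {P : ℝ → Option Bool} {D : ℕ} {q : ZMod D → Option Bool} {y : ℝ} {c : Bool}
    (h : P y = some c) : refi P D q y = some c := by
  simp [refi, h]

lemma refi_cellFn {P : ℝ → Option Bool} {D E : ℕ} (hE : 0 < E) (hP : CellFn D P)
    (q : ZMod (D * E) → Option Bool) : CellFn (D * E) (refi P (D * E) q) := by
  intro y y' h
  have h1 := hP y y' (cell_refine hE h)
  unfold refi
  rw [← h1, h]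

/-- the bad events: `b = true`: no uncoloured point among the first `n`; `b = false`: no pair of
points at distance `n` with different definite colours -/
def Bad (P : ℝ → Option Bool) (D : ℕ) (x α : ℝ) (n : ℕ) (b : Bool) (q : ZMod D → Option Bool) :
    Prop :=
  (b = true → ∀ i < n, refi P D q (x + (i : ℝ) * α) ≠ none) ∧
  (b = false → ∀ i < n, ∀ c, refi P D q (x + (i : ℝ) * α) = some c →
    refi P D q (x + ((i + n : ℕ) : ℝ) * α) ≠ some (!c))

lemma bad_card {C N D E : ℕ} (hC : 0 < C) (hD0 : 0 < D) (hE : 0 < E)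
    {P : ℝ → Option Bool}
    (hal : Alive C N P) {x α : ℝ} (hα : BA C α) {n : ℕ} (hn : N ^ 2 ≤ n) {M : ℕ}
    (hM : 2 * n ≤ M) (hD : C * M ^ 4 ≤ D * E) (b : Bool)
    (S : Finset (ZMod (D * E) → Option Bool)) (hS : ∀ q ∈ S, Bad P (D * E) x α n b q) :
    S.card * 9 ^ N ≤ 8 ^ N * 3 ^ (D * E) := by
  have : NeZero (D * E) := ⟨by positivity⟩
  -- alive indices in the blocks
  have hblock : ∀ j : Fin N, ∃ i, j.1 * N ≤ i ∧ i < (j.1 + 1) * N ∧
      P (x + (i : ℝ) * α) = none := by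
    intro j
    obtain ⟨i, hi, hP⟩ := hal α hα (x + ((j.1 * N : ℕ) : ℝ) * α)
    refine ⟨j.1 * N + i, by omega, by rw [add_mul]; omega, ?_⟩
    rw [← hP]
    congr 1
    push_cast
    ring
  choose ind hind1 hind2 hind3 using hblock
  have hindn : ∀ j, ind j < n := by
    intro j
    have h1 := hind2 j
    have h2 : (j.1 + 1) * N ≤ N * N := Nat.mul_le_mul_right _ j.2
    have h3 : N * N = N ^ 2 := (sq N).symm
    omega
  have hindinj : ∀ j j', ind j = ind j' → j = j' := by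
    intro j j' h
    have h1 := hind1 j
    have h2 := hind2 j
    have h3 := hind1 j'
    have h4 := hind2 j'
    rw [h] at h1 h2
    apply Fin.ext
    by_contra hne
    rcases lt_or_gt_of_ne hne with h5 | h5
    · have : (j.1 + 1) * N ≤ j'.1 * N := Nat.mul_le_mul_right _ h5
      omega
    · have : (j'.1 + 1) * N ≤ j.1 * N := Nat.mul_le_mul_right _ h5
      omega
  -- the excluded pairs
  have hex : ∀ j : Fin N, ∃ w : Option Bool × Option Bool, ∀ q ∈ S,
      (q (cell (D * E) (x + ((ind j : ℕ) : ℝ) * α)),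
        q (cell (D * E) (x + ((ind j + n : ℕ) : ℝ) * α))) ≠ w := by
    intro j
    cases b with
    | true =>
      refine ⟨(none, none), fun q hq h => ?_⟩
      have h1 := (hS q hq).1 rfl (ind j) (hindn j)
      rw [refi_of_none (hind3 j)] at h1
      exact h1 (congrArg Prod.fst h)
    | false =>
      rcases hP : P (x + ((ind j + n : ℕ) : ℝ) * α) with _ | c
      · refine ⟨(some true, some false), fun q hq h => ?_⟩
        have h1 := (hS q hq).2 rfl (ind j) (hindn j) true (by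
          rw [refi_of_none (hind3 j)]; exact congrArg Prod.fst h)
        rw [refi_of_none hP] at h1
        exact h1 (congrArg Prod.snd h)
      · refine ⟨(some (!c), none), fun q hq h => ?_⟩
        have h1 := (hS q hq).2 rfl (ind j) (hindn j) (!c) (by
          rw [refi_of_none (hind3 j)]; exact congrArg Prod.fst h)
        rw [refi_of_some hP] at h1
        simp at h1
  choose w hw using hex
  have := count_pairs N (fun j => cell (D * E) (x + ((ind j : ℕ) : ℝ) * α))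
    (fun j => cell (D * E) (x + ((ind j + n : ℕ) : ℝ) * α)) ?_ w S (fun q hq j => hw j q hq)
  · rwa [ZMod.card] at this
  · have hne : ∀ i i' : ℕ, i < M → i' < M →
        cell (D * E) (x + (i : ℝ) * α) = cell (D * E) (x + (i' : ℝ) * α) → i = i' := by
      intro i i' hi hi' h
      by_contra hne
      exact orbit_cell_ne hC hD hα x hi hi' hne h
    rintro (j | j) (j' | j') h <;> simp only [Sum.elim_inl, Sum.elim_inr] at h
    · have h1 := hne _ _ (by have := hindn j; omega) (by have := hindn j'; omega) h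
      rw [hindinj _ _ h1]
    · have h1 := hne _ _ (by have := hindn j; omega) (by have := hindn j'; omega) h
      have := hindn j
      omega
    · have h1 := hne _ _ (by have := hindn j; omega) (by have := hindn j'; omega) h
      have := hindn j'
      omega
    · have h1 := hne _ _ (by have := hindn j; omega) (by have := hindn j'; omega) h
      rw [hindinj j j' (by omega)]

lemma bad_congr {D : ℕ} {P : ℝ → Option Bool} {q : ZMod D → Option Bool}
    (hP : CellFn D (refi P D q)) {x α x' α' : ℝ} {n : ℕ} {b : Bool} {M : ℕ} (hM : 2 * n ≤ M)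
    (h : ∀ i < M, cell D (x + (i : ℝ) * α) = cell D (x' + (i : ℝ) * α'))
    (hb : Bad P D x α n b q) : Bad P D x' α' n b q := by
  refine ⟨fun h1 i hi => ?_, fun h1 i hi c hc => ?_⟩
  · rw [← hP _ _ (h i (by omega))]
    exact hb.1 h1 i hi
  · rw [← hP _ _ (h i (by omega))] at hc
    rw [← hP _ _ (h (i + n) (by omega))]
    exact hb.2 h1 i hi c hc

lemma BA.fract {C : ℕ} {α : ℝ} (h : BA C α) : BA C (Int.fract α) := by
  intro n hn m
  have := h n hn (n * ⌊α⌋ + m)
  have e : (n : ℝ) * Int.fract α - m = n * α - ((n * ⌊α⌋ + m : ℤ) : ℝ) := by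
    rw [Int.fract]
    push_cast
    ring
  rwa [e]

lemma exists_large (C : ℕ) : ∃ N0 : ℕ, ∀ N ≥ N0, C ≤ N ∧ 2 ≤ N ∧ N ^ 155 * 8 ^ N < 9 ^ N := by
  have h := tendsto_pow_const_mul_const_pow_of_abs_lt_one 155
    (show |(8 / 9 : ℝ)| < 1 by rw [abs_of_pos] <;> norm_num)
  have h1 := (h.eventually (gt_mem_nhds (zero_lt_one))).and
    ((Filter.eventually_ge_atTop C).and (Filter.eventually_ge_atTop 2))
  obtain ⟨N0, hN0⟩ := Filter.eventually_atTop.1 h1
  refine ⟨N0, fun N hN => ?_⟩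
  obtain ⟨h2, h3, h4⟩ := hN0 N hN
  refine ⟨h3, h4, ?_⟩
  rw [div_pow, ← mul_div_assoc, div_lt_one (by positivity)] at h2
  exact_mod_cast h2

lemma sig_bound {D M i : ℕ} {x α : ℝ} (hx0 : 0 ≤ x) (hx1 : x < 1) (ha0 : 0 ≤ α) (ha1 : α < 1)
    (hi : i < M) : 0 ≤ ⌊(D : ℝ) * x + (i : ℝ) * ((D : ℝ) * α)⌋ ∧
      ⌊(D : ℝ) * x + (i : ℝ) * ((D : ℝ) * α)⌋ ≤ (D * M : ℕ) := by
  have hD : (0 : ℝ) ≤ D := Nat.cast_nonneg D
  have hi0 : (0 : ℝ) ≤ i := Nat.cast_nonneg i
  have hiM : (i : ℝ) + 1 ≤ M := by exact_mod_cast hi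
  constructor
  · apply Int.floor_nonneg.2
    positivity
  · have h1 : (D : ℝ) * x + (i : ℝ) * ((D : ℝ) * α) ≤ ((D * M : ℕ) : ℝ) := by
      push_cast
      have h2 : (D : ℝ) * x ≤ D * 1 := mul_le_mul_of_nonneg_left hx1.le hD
      have h3 : (i : ℝ) * ((D : ℝ) * α) ≤ i * (D * 1) := by
        apply mul_le_mul_of_nonneg_left _ hi0
        exact mul_le_mul_of_nonneg_left ha1.le hD
      have h4 : (D : ℝ) * (i + 1) ≤ D * M := mul_le_mul_of_nonneg_left hiM hD
      nlinarith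
    have h2 := Int.floor_le_floor h1
    rwa [Int.floor_natCast] at h2

lemma card_J {N C D M E : ℕ} (hC : C ≤ N) (h2 : 2 ≤ N) (hD : D ≤ N ^ 40) (hM : M = 2 * N ^ 4)
    (hE : E = C * M ^ 4) : D * E ≤ N ^ 61 ∧
      2 * ((N ^ 4 + 1) * ((M * (D * E * M) + 1) * (M * (M * (D * E * M)) + 1))) ≤ N ^ 155 := by
  have hN1 : 1 ≤ N := by omega
  have hM5 : M ≤ N ^ 5 := by
    rw [hM]
    calc 2 * N ^ 4 ≤ N * N ^ 4 := Nat.mul_le_mul_right _ h2
      _ = N ^ 5 := by ring
  have hE21 : E ≤ N ^ 21 := by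
    rw [hE]
    calc C * M ^ 4 ≤ N * (N ^ 5) ^ 4 := Nat.mul_le_mul hC (Nat.pow_le_pow_left hM5 4)
      _ = N ^ 21 := by ring
  have hDE : D * E ≤ N ^ 61 := by
    calc D * E ≤ N ^ 40 * N ^ 21 := Nat.mul_le_mul hD hE21
      _ = N ^ 61 := by ring
  refine ⟨hDE, ?_⟩
  have hU : M * (D * E * M) ≤ N ^ 71 := by
    calc M * (D * E * M) ≤ N ^ 5 * (N ^ 61 * N ^ 5) :=
          Nat.mul_le_mul hM5 (Nat.mul_le_mul hDE hM5)
      _ = N ^ 71 := by ring
  have hV : M * (M * (D * E * M)) ≤ N ^ 76 := by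
    calc M * (M * (D * E * M)) ≤ N ^ 5 * N ^ 71 := Nat.mul_le_mul hM5 hU
      _ = N ^ 76 := by ring
  have hp : ∀ k, 1 ≤ k → ∀ a, a ≤ N ^ k → a + 1 ≤ N ^ (k + 1) := by
    intro k _ a ha
    have h1 : 1 ≤ N ^ k := Nat.one_le_pow _ _ (by omega)
    calc a + 1 ≤ N ^ k + N ^ k := Nat.add_le_add ha h1
      _ = 2 * N ^ k := by ring
      _ ≤ N * N ^ k := Nat.mul_le_mul_right _ h2
      _ = N ^ (k + 1) := by ring
  calc 2 * ((N ^ 4 + 1) * ((M * (D * E * M) + 1) * (M * (M * (D * E * M)) + 1)))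
      ≤ N * (N ^ 5 * (N ^ 72 * N ^ 77)) :=
        Nat.mul_le_mul h2 (Nat.mul_le_mul (hp 4 (by norm_num) _ le_rfl)
          (Nat.mul_le_mul (hp 71 (by norm_num) _ hU) (hp 76 (by norm_num) _ hV)))
    _ = N ^ 155 := by ring

theorem step {C N D : ℕ} (hC0 : 0 < C) (hC : C ≤ N) (h2 : 2 ≤ N)
    (hN : N ^ 155 * 8 ^ N < 9 ^ N) (hD0 : 0 < D) (hD : D ≤ N ^ 40) {P : ℝ → Option Bool}
    (hP : CellFn D P) (hal : Alive C N P) :
    ∃ D', 0 < D' ∧ D' ≤ (N ^ 2) ^ 40 ∧ ∃ P' : ℝ → Option Bool, CellFn D' P' ∧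
      (∀ y c, P y = some c → P' y = some c) ∧ Alive C (N ^ 2) P' ∧
      ∀ n, N ^ 2 ≤ n → n < N ^ 4 → ∀ α, BA C α → ∀ x : ℝ, ∃ i < n, ∃ c,
        P' (x + (i : ℝ) * α) = some c ∧ P' (x + ((i + n : ℕ) : ℝ) * α) = some (!c) := by
  classical
  obtain ⟨M, hM⟩ : ∃ M, M = 2 * N ^ 4 := ⟨_, rfl⟩
  obtain ⟨E, hE⟩ : ∃ E, E = C * M ^ 4 := ⟨_, rfl⟩
  have hM0 : 0 < M := by rw [hM]; positivity
  have hE0 : 0 < E := by rw [hE]; positivity
  obtain ⟨hDE, hJ⟩ := card_J hC h2 hD hM hE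
  have hDE0 : 0 < D * E := Nat.mul_pos hD0 hE0
  have : NeZero (D * E) := ⟨hDE0.ne'⟩
  have hCM : C * M ^ 4 ≤ D * E := by
    rw [← hE]; exact Nat.le_mul_of_pos_left E hD0
  have hN24 : N ^ 2 ≤ N ^ 4 := Nat.pow_le_pow_right (by omega) (by norm_num)
  by_contra hcon
  -- every `q` is bad
  have hbad : ∀ q : ZMod (D * E) → Option Bool, ∃ (b : Bool) (n : ℕ) (x α : ℝ),
      N ^ 2 ≤ n ∧ n ≤ N ^ 4 ∧ 0 ≤ x ∧ x < 1 ∧ 0 ≤ α ∧ α < 1 ∧ BA C α ∧
        Bad P (D * E) x α n b q := by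
    intro q
    have hcf := refi_cellFn hE0 hP q
    have hext : ∀ y c, P y = some c → refi P (D * E) q y = some c :=
      fun y c h => refi_of_some h
    have key : ∃ (b : Bool) (n : ℕ) (x α : ℝ), N ^ 2 ≤ n ∧ n ≤ N ^ 4 ∧ BA C α ∧
        Bad P (D * E) x α n b q := by
      by_contra hno
      push Not at hno
      apply hcon
      refine ⟨D * E, hDE0, ?_, refi P (D * E) q, hcf, hext, ?_, ?_⟩
      · rw [← pow_mul]
        exact hDE.trans (Nat.pow_le_pow_right (by omega) (by norm_num))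
      · intro α hα x
        by_contra hx
        push Not at hx
        exact hno true (N ^ 2) x α le_rfl hN24 hα ⟨fun _ => hx, fun h => by simp at h⟩
      · intro n hn1 hn2 α hα x
        by_contra hx
        push Not at hx
        exact hno false n x α hn1 hn2.le hα ⟨fun h => by simp at h, fun _ => hx⟩
    obtain ⟨b, n, x, α, h1, h3, h4, h5⟩ := key
    refine ⟨b, n, Int.fract x, Int.fract α, h1, h3, Int.fract_nonneg x, Int.fract_lt_one x,
      Int.fract_nonneg α, Int.fract_lt_one α, h4.fract, ?_⟩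
    refine bad_congr hcf (M := M) (by omega) (fun i _ => ?_) h5
    have e : x + (i : ℝ) * α = (Int.fract x + (i : ℝ) * Int.fract α) +
        ((⌊x⌋ + i * ⌊α⌋ : ℤ) : ℝ) := by
      rw [Int.fract, Int.fract]
      push_cast
      ring
    rw [e, cell_int]
  choose b n x α hn1 hn2 hx0 hx1 ha0 ha1 hBA hB using hbad
  let f : (ZMod (D * E) → Option Bool) → Bool × ℕ × ℤ × ℤ := fun q =>
    (b q, n q, ∑ i ∈ range M, ⌊((D * E : ℕ) : ℝ) * x q + (i : ℝ) * (((D * E : ℕ) : ℝ) * α q)⌋,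
      ∑ i ∈ range M, (i : ℤ) *
        ⌊((D * E : ℕ) : ℝ) * x q + (i : ℝ) * (((D * E : ℕ) : ℝ) * α q)⌋)
  let J : Finset (Bool × ℕ × ℤ × ℤ) := univ ×ˢ (range (N ^ 4 + 1) ×ˢ
    (Icc (0 : ℤ) ((M * (D * E * M) : ℕ) : ℤ) ×ˢ Icc (0 : ℤ) ((M * (M * (D * E * M)) : ℕ) : ℤ)))
  have hJcard : J.card ≤ N ^ 155 := by
    simp only [J, card_product, card_univ, Fintype.card_bool, card_range, Int.card_Icc]
    refine le_trans (le_of_eq ?_) hJ
    congr 3
  have hf : ∀ q ∈ (univ : Finset (ZMod (D * E) → Option Bool)), f q ∈ J := by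
    intro q _
    have hb1 : ∀ i ∈ range M,
        0 ≤ ⌊((D * E : ℕ) : ℝ) * x q + (i : ℝ) * (((D * E : ℕ) : ℝ) * α q)⌋ ∧
        ⌊((D * E : ℕ) : ℝ) * x q + (i : ℝ) * (((D * E : ℕ) : ℝ) * α q)⌋ ≤ (D * E * M : ℕ) :=
      fun i hi => sig_bound (hx0 q) (hx1 q) (ha0 q) (ha1 q) (mem_range.1 hi)
    simp only [f, J, mem_product, mem_univ, mem_range, mem_Icc, true_and]
    refine ⟨by have := hn2 q; omega, ⟨sum_nonneg fun i hi => (hb1 i hi).1, ?_⟩,
      ⟨sum_nonneg fun i hi => mul_nonneg (by positivity) (hb1 i hi).1, ?_⟩⟩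
    · have := sum_le_card_nsmul (range M) _ _ (fun i hi => (hb1 i hi).2)
      rw [card_range, nsmul_eq_mul] at this
      push_cast at this ⊢
      exact this
    · have h1 : ∀ i ∈ range M, (i : ℤ) *
          ⌊((D * E : ℕ) : ℝ) * x q + (i : ℝ) * (((D * E : ℕ) : ℝ) * α q)⌋ ≤
            (M * (D * E * M) : ℕ) := by
        intro i hi
        have h2 : (i : ℤ) ≤ M := by
          have := mem_range.1 hi
          omega
        calc (i : ℤ) * ⌊((D * E : ℕ) : ℝ) * x q + (i : ℝ) * (((D * E : ℕ) : ℝ) * α q)⌋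
            ≤ (M : ℤ) * (D * E * M : ℕ) := mul_le_mul h2 (hb1 i hi).2 (hb1 i hi).1 (by positivity)
          _ = (M * (D * E * M) : ℕ) := by push_cast; ring
      have := sum_le_card_nsmul (range M) _ _ h1
      rw [card_range, nsmul_eq_mul] at this
      push_cast at this ⊢
      exact this
  -- pigeonhole
  obtain ⟨σ, hσ, hcard⟩ : ∃ σ ∈ J, (3 : ℕ) ^ (D * E) ≤ J.card *
      (univ.filter fun q => f q = σ).card := by
    by_contra hno
    push Not at hno
    have h1 : (univ : Finset (ZMod (D * E) → Option Bool)).card =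
        ∑ σ ∈ J, (univ.filter fun q => f q = σ).card := card_eq_sum_card_fiberwise hf
    have hJne : J.Nonempty := ⟨f (fun _ => none), hf _ (mem_univ _)⟩
    have h3 : (univ : Finset (ZMod (D * E) → Option Bool)).card = 3 ^ (D * E) := by
      rw [card_univ, Fintype.card_fun, ZMod.card]
      rfl
    have h4 : ∑ σ ∈ J, J.card * (univ.filter fun q => f q = σ).card <
        ∑ σ ∈ J, 3 ^ (D * E) := sum_lt_sum_of_nonempty hJne hno
    rw [← mul_sum, ← h1, h3, sum_const, smul_eq_mul] at h4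
    exact lt_irrefl _ h4
  obtain ⟨S, hS⟩ : ∃ S, S = univ.filter fun q => f q = σ := ⟨_, rfl⟩
  rw [← hS] at hcard
  have hSne : S.Nonempty := by
    rw [nonempty_iff_ne_empty]
    intro h
    rw [h, card_empty, mul_zero] at hcard
    have : 0 < 3 ^ (D * E) := by positivity
    omega
  obtain ⟨q0, hq0⟩ := hSne
  have hfq : ∀ q ∈ S, f q = f q0 := by
    intro q hq
    rw [hS, mem_filter] at hq hq0
    rw [hq.2, hq0.2]
  have hSbad : ∀ q ∈ S, Bad P (D * E) (x q0) (α q0) (n q0) (b q0) q := by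
    intro q hq
    have h := hfq q hq
    simp only [f, Prod.mk.injEq] at h
    obtain ⟨h1, h3, h4, h5⟩ := h
    have h6 := floors_eq M _ _ _ _ h4 h5
    rw [← h1, ← h3]
    refine bad_congr (refi_cellFn hE0 hP q) (M := M) (by have := hn2 q; omega) (fun i hi => ?_)
      (hB q)
    unfold cell
    have e1 : ((D * E : ℕ) : ℝ) * (x q + (i : ℝ) * α q) =
        ((D * E : ℕ) : ℝ) * x q + (i : ℝ) * (((D * E : ℕ) : ℝ) * α q) := by ring
    have e2 : ((D * E : ℕ) : ℝ) * (x q0 + (i : ℝ) * α q0) =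
        ((D * E : ℕ) : ℝ) * x q0 + (i : ℝ) * (((D * E : ℕ) : ℝ) * α q0) := by ring
    rw [e1, e2, h6 i hi]
  have hfin := bad_card hC0 hD0 hE0 hal (hBA q0) (hn1 q0) (M := M)
    (by have := hn2 q0; omega) hCM (b q0) S hSbad
  have h10 : 3 ^ (D * E) * 9 ^ N ≤ N ^ 155 * 8 ^ N * 3 ^ (D * E) := by
    calc 3 ^ (D * E) * 9 ^ N ≤ (J.card * S.card) * 9 ^ N := Nat.mul_le_mul_right _ hcard
      _ = J.card * (S.card * 9 ^ N) := by ring
      _ ≤ N ^ 155 * (8 ^ N * 3 ^ (D * E)) := Nat.mul_le_mul hJcard hfin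
      _ = N ^ 155 * 8 ^ N * 3 ^ (D * E) := by ring
  have h11 : N ^ 155 * 8 ^ N * 3 ^ (D * E) < 9 ^ N * 3 ^ (D * E) :=
    Nat.mul_lt_mul_of_pos_right hN (by positivity)
  have h12 : 3 ^ (D * E) * 9 ^ N = 9 ^ N * 3 ^ (D * E) := by ring
  omega

end Pool.Agent.H175R3.CircleCol
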