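import Mathlib
import Pool.Agent.H175R3.CircleCol

set_option autoImplicit false

namespace Pool.Agent.H175R3.CircleCol

/-- the lengths `N0 ^ (2 ^ j)` -/
def NN (N0 j : ℕ) : ℕ := N0 ^ (2 ^ j)

lemma NN_succ (N0 j : ℕ) : NN N0 (j + 1) = NN N0 j ^ 2 := by
  unfold NN
  rw [← pow_mul, ← pow_succ]

lemma NN_zero (N0 : ℕ) : NN N0 0 = N0 := by simp [NN]

lemma NN_ge (N0 j : ℕ) (h : 2 ≤ N0) : N0 ≤ NN N0 j :=
  calc N0 = N0 ^ 1 := (pow_one _).symm
    _ ≤ N0 ^ (2 ^ j) := Nat.pow_le_pow_right (by omega) Nat.one_le_two_pow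

lemma NN_large (N0 j : ℕ) (h : 2 ≤ N0) : j < NN N0 j :=
  calc j < 2 ^ j := Nat.lt_two_pow_self
    _ < N0 ^ (2 ^ j) := Nat.lt_pow_self (by omega)

/-- the state invariant -/
def Inv (C N : ℕ) (s : ℕ × (ℝ → Option Bool)) : Prop :=
  0 < s.1 ∧ s.1 ≤ N ^ 40 ∧ CellFn s.1 s.2 ∧ Alive C N s.2

def Rel (C N : ℕ) (P P' : ℝ → Option Bool) : Prop :=
  (∀ y c, P y = some c → P' y = some c) ∧
  ∀ n, N ^ 2 ≤ n → n < N ^ 4 → ∀ α, BA C α → ∀ x : ℝ, ∃ i < n, ∃ c,
    P' (x + (i : ℝ) * α) = some c ∧ P' (x + ((i + n : ℕ) : ℝ) * α) = some (!c)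

theorem exists_seq {C : ℕ} (hC : 0 < C) {N0 : ℕ}
    (hN0 : ∀ N ≥ N0, C ≤ N ∧ 2 ≤ N ∧ N ^ 155 * 8 ^ N < 9 ^ N) :
    ∃ P : ℕ → ℝ → Option Bool, ∀ j, Rel C (NN N0 j) (P j) (P (j + 1)) := by
  have h2 : 2 ≤ N0 := (hN0 N0 le_rfl).2.1
  have hstep : ∀ j (s : {s // Inv C (NN N0 j) s}), ∃ s' : {s // Inv C (NN N0 (j + 1)) s},
      Rel C (NN N0 j) s.1.2 s'.1.2 := by
    rintro j ⟨⟨D, P⟩, h⟩
    obtain ⟨k1, k2, k3, k4⟩ := h
    obtain ⟨g1, g2, g3⟩ := hN0 (NN N0 j) (NN_ge N0 j h2)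
    obtain ⟨D', h1, h3, P', h4, h5, h6, h7⟩ := step hC g1 g2 g3 k1 k2 k3 k4
    refine ⟨⟨(D', P'), h1, ?_, h4, ?_⟩, h5, h7⟩
    · rw [NN_succ]; exact h3
    · rw [NN_succ]; exact h6
  choose nxt hnxt using hstep
  have hbase : Inv C (NN N0 0) (1, fun _ => none) := by
    refine ⟨Nat.one_pos, Nat.one_le_pow _ _ ?_, fun _ _ _ => rfl, fun α _ x => ⟨0, ?_, rfl⟩⟩
    · rw [NN_zero]; omega
    · rw [NN_zero]; omega
  let s : ∀ j, {s // Inv C (NN N0 j) s} := fun j =>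
    Nat.rec (motive := fun j => {s // Inv C (NN N0 j) s}) ⟨_, hbase⟩ (fun j p => nxt j p) j
  exact ⟨fun j => (s j).1.2, fun j => hnxt j (s j)⟩

/-- **A finite colouring of the circle, nonrepetitive along badly approximable rotations.** -/
theorem circle_coloring (C : ℕ) (hC : 0 < C) : ∃ (q : ℕ) (F : ℝ → Fin q), ∀ α, BA C α →
    ∀ x : ℝ, ∀ n : ℕ, 0 < n → ∃ i < n,
      F (x + (i : ℝ) * α) ≠ F (x + ((i + n : ℕ) : ℝ) * α) := by
  classical
  obtain ⟨N0, hN0⟩ := exists_large C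
  have h2 : 2 ≤ N0 := (hN0 N0 le_rfl).2.1
  obtain ⟨P, hP⟩ := exists_seq hC hN0
  have hmono : ∀ i j, i ≤ j → ∀ y c, P i y = some c → P j y = some c := by
    intro i j hij y c h
    induction j, hij using Nat.le_induction with
    | base => exact h
    | succ j _ ih => exact (hP j).1 y c ih
  let F1 : ℝ → Bool := fun y => decide (∃ j, P j y = some true)
  have hF1 : ∀ j y c, P j y = some c → F1 y = c := by
    intro j y c h
    cases c with
    | true => simp only [F1, decide_eq_true_eq]; exact ⟨j, h⟩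
    | false =>
      simp only [F1, decide_eq_false_iff_not]
      rintro ⟨j', h'⟩
      have h1 := hmono j (max j j') (le_max_left _ _) y _ h
      have h3 := hmono j' (max j j') (le_max_right _ _) y _ h'
      rw [h1] at h3
      simp at h3
  obtain ⟨D0, hD0⟩ : ∃ D0, D0 = C * (N0 ^ 2) ^ 4 := ⟨_, rfl⟩
  have hD0pos : 0 < D0 := by rw [hD0]; positivity
  have : NeZero D0 := ⟨hD0pos.ne'⟩
  let e := Fintype.equivFin (ZMod D0 × Bool)
  refine ⟨Fintype.card (ZMod D0 × Bool), fun y => e (cell D0 y, F1 y), ?_⟩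
  intro α hα x n hn
  rcases Nat.lt_or_ge n (N0 ^ 2) with hlt | hge
  · refine ⟨0, hn, ?_⟩
    intro h
    have h1 := e.injective h
    simp only [Prod.mk.injEq] at h1
    refine cell_ne hD0pos (y := x + ((0 + n : ℕ) : ℝ) * α) (y' := x + ((0 : ℕ) : ℝ) * α) ?_
      h1.1.symm
    intro m
    have h3 := hα n hn m
    have e1 : x + ((0 + n : ℕ) : ℝ) * α - (x + ((0 : ℕ) : ℝ) * α) - m = n * α - m := by
      push_cast
      ring
    rw [e1]
    refine le_trans ?_ h3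
    apply one_div_le_one_div_of_le (by positivity)
    have : C * n ^ 4 ≤ D0 := by
      rw [hD0]
      exact Nat.mul_le_mul_left _ (Nat.pow_le_pow_left hlt.le 4)
    exact_mod_cast this
  · -- long squares
    have hex : ∃ j, n < NN N0 (j + 2) :=
      ⟨n, lt_of_lt_of_le (NN_large N0 n h2) (by
        unfold NN
        exact Nat.pow_le_pow_right (by omega) (Nat.pow_le_pow_right (by norm_num) (by omega)))⟩
    obtain ⟨j, hj1, hj2⟩ : ∃ j, NN N0 (j + 1) ≤ n ∧ n < NN N0 (j + 2) := by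
      refine ⟨Nat.find hex, ?_, Nat.find_spec hex⟩
      rcases Nat.eq_zero_or_pos (Nat.find hex) with h0 | h0
      · rw [h0, NN_succ, NN_zero]
        exact hge
      · have := Nat.find_min hex (show Nat.find hex - 1 < Nat.find hex by omega)
        rw [show Nat.find hex - 1 + 2 = Nat.find hex + 1 by omega] at this
        omega
    have hj3 : n < NN N0 j ^ 4 := by
      rw [NN_succ, NN_succ, ← pow_mul] at hj2
      exact hj2
    rw [NN_succ] at hj1
    obtain ⟨i, hi, c, hc1, hc2⟩ := (hP j).2 n hj1 hj3 α hα x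
    refine ⟨i, hi, ?_⟩
    intro h
    have h1 := e.injective h
    simp only [Prod.mk.injEq] at h1
    rw [hF1 _ _ _ hc1, hF1 _ _ _ hc2] at h1
    simp at h1

end Pool.Agent.H175R3.CircleCol
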