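import Mathlib

/-!
For every lacunary set `K` there is a real `θ` such that all `k θ`, `k ∈ K`, are uniformly
polynomially badly approximable.
-/

set_option autoImplicit false

namespace Pool.Agent.H175R3.LacTheta

open Finset

/-- the level at which the bad points of denominator `n k` are separated -/
def tp (n k : ℕ) : ℕ := Nat.clog 4 (2 * n * k)

/-- the level at which the bad intervals of `(n, k)` are removed -/
def tau (s n k : ℕ) : ℕ := tp n k + (2 * Nat.clog 2 n + s)

def Bad (s n k a : ℕ) : Prop :=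
  ∃ m : ℤ, |((n * k * a : ℕ) : ℤ) - m * 4 ^ (tau s n k)| < 4 ^ (tp n k) + ((n * k : ℕ) : ℤ)

def Surv (K : Set ℕ) (s t a : ℕ) : Prop :=
  a < 4 ^ t ∧ ∀ n k, 0 < n → k ∈ K → tau s n k ≤ t → ¬ Bad s n k (a / 4 ^ (t - tau s n k))

lemma surv_anc {K : Set ℕ} {s t t' a : ℕ} (h : Surv K s t a) (ht : t' ≤ t) :
    Surv K s t' (a / 4 ^ (t - t')) := by
  constructor
  · rw [Nat.div_lt_iff_lt_mul (by positivity), ← pow_add, Nat.add_sub_cancel' ht]
    exact h.1
  · intro n k hn hk hle
    rw [Nat.div_div_eq_div_mul, ← pow_add, show t - t' + (t' - tau s n k) = t - tau s n k by omega]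
    exact h.2 n k hn hk (hle.trans ht)

lemma surv_succ {K : Set ℕ} {s t a : ℕ} (ha : a < 4 ^ (t + 1)) (h : Surv K s t (a / 4))
    (hb : ∀ n k, 0 < n → k ∈ K → tau s n k = t + 1 → ¬ Bad s n k a) : Surv K s (t + 1) a := by
  refine ⟨ha, fun n k hn hk hle => ?_⟩
  rcases Nat.eq_or_lt_of_le hle with he | hlt
  · rw [he, Nat.sub_self, pow_zero, Nat.div_one]
    exact hb n k hn hk he
  · have h1 := h.2 n k hn hk (by omega)
    rw [Nat.div_div_eq_div_mul, ← pow_succ', show t - tau s n k + 1 = t + 1 - tau s n k by omega]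
      at h1
    exact h1

open Classical in
noncomputable def SS (K : Set ℕ) (s t : ℕ) : Finset ℕ := (range (4 ^ t)).filter (Surv K s t)

lemma mem_SS {K : Set ℕ} {s t a : ℕ} : a ∈ SS K s t ↔ Surv K s t a := by
  simp only [SS, mem_filter, mem_range, and_iff_right_iff_imp]
  exact fun h => h.1

/-- a set of naturals of diameter less than `D` has at most `D` elements -/
lemma card_diam (F : Finset ℕ) (D : ℕ) (h : ∀ a ∈ F, ∀ b ∈ F, b < a + D) : F.card ≤ D := by
  rcases F.eq_empty_or_nonempty with rfl | hne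
  · simp
  · have hsub : F ⊆ Ico (F.min' hne) (F.min' hne + D) := by
      intro x hx
      rw [mem_Ico]
      exact ⟨F.min'_le x hx, h _ (F.min'_mem hne) x hx⟩
    have := card_le_card hsub
    rw [Nat.card_Ico] at this
    omega

lemma tp_le {n k : ℕ} : 2 * n * k ≤ 4 ^ tp n k := Nat.le_pow_clog (by norm_num) _

lemma tp_lt {n k : ℕ} (hn : 0 < n) (hk : 0 < k) : 4 ^ tp n k < 8 * (n * k) := by
  have hnk : 0 < n * k := Nat.mul_pos hn hk
  have h1 : 1 < 2 * n * k := by
    have : 2 * n * k = 2 * (n * k) := by ring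
    omega
  have h2 := Nat.pow_pred_clog_lt_self (b := 4) (by norm_num) h1
  have h3 : 0 < Nat.clog 4 (2 * n * k) := Nat.clog_pos (by norm_num) h1
  have h4 : 4 ^ tp n k = 4 * 4 ^ (tp n k).pred := by
    unfold tp
    rw [← pow_succ', Nat.pred_eq_sub_one]
    congr 1
    omega
  have h5 : 2 * n * k = 2 * (n * k) := by ring
  rw [h4]
  unfold tp
  omega

lemma tp_pos {n k : ℕ} (hn : 0 < n) (hk : 0 < k) : 4 ^ (tp n k - 1) < 2 * n * k := by
  have hnk : 0 < n * k := Nat.mul_pos hn hk
  have h1 : 1 < 2 * n * k := by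
    have : 2 * n * k = 2 * (n * k) := by ring
    omega
  exact Nat.pow_pred_clog_lt_self (b := 4) (by norm_num) h1

/-- in one block there are few bad points -/
lemma bad_block {s n k : ℕ} (hs : 2 ≤ s) (hn : 0 < n) (hk : 0 < k) (a' : ℕ) (F : Finset ℕ)
    (hF : ∀ a ∈ F, Bad s n k a ∧ a / 4 ^ (tau s n k - tp n k) = a') : F.card ≤ 18 := by
  apply card_diam
  intro a ha b hb
  obtain ⟨⟨m, hm⟩, ha'⟩ := hF a ha
  obtain ⟨⟨m', hm'⟩, hb'⟩ := hF b hb
  obtain ⟨Q, hQ⟩ : ∃ Q, Q = 4 ^ (tau s n k - tp n k) := ⟨_, rfl⟩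
  rw [← hQ] at ha' hb'
  have hQpos : 0 < Q := by rw [hQ]; positivity
  have hQ6 : 16 ≤ Q := by
    rw [hQ]
    calc 16 = 4 ^ 2 := by norm_num
      _ ≤ 4 ^ (tau s n k - tp n k) := Nat.pow_le_pow_right (by norm_num) (by unfold tau; omega)
  have hT : 4 ^ tau s n k = 4 ^ tp n k * Q := by
    rw [hQ, ← pow_add]; congr 1; unfold tau; omega
  obtain ⟨T, hTdef⟩ : ∃ T, T = 4 ^ tp n k := ⟨_, rfl⟩
  obtain ⟨k0, hk0⟩ : ∃ k0, k0 = n * k := ⟨_, rfl⟩
  have h1 : 2 * k0 ≤ T := by
    have := tp_le (n := n) (k := k)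
    rw [hk0, hTdef]; linarith
  have h2 : T < 8 * k0 := by
    have := tp_lt hn hk
    rw [hk0, hTdef]; exact this
  have hab : (a : ℤ) - b < Q ∧ (b : ℤ) - a < Q := by
    have e1 := Nat.div_add_mod a Q
    have e2 := Nat.div_add_mod b Q
    have e3 := Nat.mod_lt a hQpos
    have e4 := Nat.mod_lt b hQpos
    rw [ha'] at e1
    rw [hb'] at e2
    omega
  have hTZ : (4 : ℤ) ^ tau s n k = T * Q := by
    have : ((4 ^ tau s n k : ℕ) : ℤ) = ((4 ^ tp n k * Q : ℕ) : ℤ) := by rw [hT]
    push_cast at this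
    rw [this, hTdef]
    push_cast
    ring
  have hTZ' : (4 : ℤ) ^ tp n k = T := by rw [hTdef]; push_cast; ring
  rw [hTZ, hTZ', ← hk0] at hm hm'
  push_cast at hm hm'
  have h1' : 2 * (k0 : ℤ) ≤ T := by exact_mod_cast h1
  have h2' : (T : ℤ) < 8 * k0 := by exact_mod_cast h2
  have hk0pos : (0 : ℤ) < k0 := by omega
  have hQ6' : (16 : ℤ) ≤ Q := by exact_mod_cast hQ6
  rw [abs_lt] at hm hm'
  obtain ⟨W, hW⟩ : ∃ W : ℤ, W = T * Q := ⟨_, rfl⟩
  rw [← hW] at hm hm'
  have hd1 : (k0 : ℤ) * a - k0 * b ≤ k0 * Q := by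
    have := mul_le_mul_of_nonneg_left hab.1.le hk0pos.le
    rwa [mul_sub] at this
  have hd2 : (k0 : ℤ) * b - k0 * a ≤ k0 * Q := by
    have := mul_le_mul_of_nonneg_left hab.2.le hk0pos.le
    rwa [mul_sub] at this
  have hkQ : 2 * ((k0 : ℤ) * Q) ≤ W := by
    rw [hW, ← mul_assoc]
    exact mul_le_mul_of_nonneg_right h1' (by positivity)
  have hTQ : 16 * (T : ℤ) ≤ W := by
    rw [hW, mul_comm]
    exact mul_le_mul_of_nonneg_left hQ6' (by positivity)
  have hWpos : 0 < W := by linarith
  have hmm : m = m' := by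
    by_contra hne
    rcases lt_or_gt_of_ne hne with hlt | hlt
    · have h3 : W ≤ m' * W - m * W := by
        have h3 : (1 : ℤ) ≤ m' - m := by omega
        have := mul_le_mul_of_nonneg_right h3 hWpos.le
        rw [sub_mul, one_mul] at this
        exact this
      linarith [hm.1, hm.2, hm'.1, hm'.2]
    · have h3 : W ≤ m * W - m' * W := by
        have h3 : (1 : ℤ) ≤ m - m' := by omega
        have := mul_le_mul_of_nonneg_right h3 hWpos.le
        rw [sub_mul, one_mul] at this
        exact this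
      linarith [hm.1, hm.2, hm'.1, hm'.2]
  rw [← hmm] at hm'
  have h3 : (k0 : ℤ) * ((b : ℤ) - a) < k0 * 18 := by
    rw [mul_sub]
    linarith [hm.1, hm.2, hm'.1, hm'.2]
  have h4 := lt_of_mul_lt_mul_left h3 hk0pos.le
  omega

/-- lacunary sets have few elements in short windows -/
lemma lac_card {K : Set ℕ} {δ : ℝ} (hδ : 0 < δ)
    (hK : ∀ a ∈ K, ∀ b ∈ K, a < b → (1 + δ) * (a : ℝ) < (b : ℝ)) (hpos : ∀ k ∈ K, 0 < k)
    {B : ℕ} (hB : (4 : ℝ) ≤ (1 + δ) ^ B) (F : Finset ℕ) (hF : ∀ a ∈ F, a ∈ K)
    (hw : ∀ a ∈ F, ∀ b ∈ F, b < 4 * a) : F.card ≤ B := by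
  rcases F.eq_empty_or_nonempty with rfl | hne
  · simp
  · have key : ∀ G : Finset ℕ, (∀ a ∈ G, a ∈ K) → ∀ hG : G.Nonempty,
        (1 + δ) ^ (G.card - 1) * (G.min' hG : ℝ) ≤ G.max' hG := by
      intro G
      induction G using Finset.induction_on_max with
      | empty => intro _ h; exact absurd h (by simp)
      | insert a G hlt ih =>
        intro hGK hG
        rcases G.eq_empty_or_nonempty with rfl | hG'
        · simp
        · have h1 := ih (fun x hx => hGK x (mem_insert_of_mem hx)) hG'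
          have hna : a ∉ G := fun h => lt_irrefl _ (hlt a h)
          have h2 : (insert a G).max' hG = a := by
            apply le_antisymm
            · apply max'_le
              intro y hy
              rcases mem_insert.1 hy with rfl | h
              · exact le_rfl
              · exact (hlt y h).le
            · exact le_max' _ _ (mem_insert_self _ _)
          have h3 : (insert a G).min' hG = G.min' hG' := by
            apply le_antisymm
            · exact min'_le _ _ (mem_insert_of_mem (min'_mem _ _))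
            · apply le_min'
              intro y hy
              rcases mem_insert.1 hy with rfl | h
              · exact (hlt _ (min'_mem _ _)).le
              · exact min'_le _ _ h
          rw [h2, h3, card_insert_of_notMem hna, Nat.add_sub_cancel]
          have h4 := hK _ (hGK _ (mem_insert_of_mem (max'_mem G hG'))) a
            (hGK a (mem_insert_self _ _)) (hlt _ (max'_mem _ _))
          have h5 : G.card = (G.card - 1) + 1 := by
            have := card_pos.2 hG'
            omega
          rw [h5, pow_succ]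
          calc (1 + δ) ^ (G.card - 1) * (1 + δ) * (G.min' hG' : ℝ)
              = (1 + δ) * ((1 + δ) ^ (G.card - 1) * (G.min' hG' : ℝ)) := by ring
            _ ≤ (1 + δ) * (G.max' hG' : ℝ) := mul_le_mul_of_nonneg_left h1 (by linarith)
            _ ≤ a := h4.le
    have h1 := key F hF hne
    have h2 : ((F.max' hne : ℕ) : ℝ) < 4 * (F.min' hne : ℕ) := by
      exact_mod_cast hw _ (min'_mem _ _) _ (max'_mem _ _)
    have h3 : (0 : ℝ) < (F.min' hne : ℕ) := by
      exact_mod_cast hpos _ (hF _ (min'_mem _ _))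
    have h4 : (1 + δ) ^ (F.card - 1) < (1 + δ) ^ B := by
      have : (1 + δ) ^ (F.card - 1) < 4 := by
        by_contra hcon
        push Not at hcon
        have := mul_le_mul_of_nonneg_right hcon h3.le
        linarith
      linarith
    have h5 := (pow_lt_pow_iff_right₀ (show (1 : ℝ) < 1 + δ by linarith)).1 h4
    omega

/-- the number of surviving children killed by `(n, k)` -/
lemma killed_card {K : Set ℕ} {s t n k : ℕ} (hs : 2 ≤ s) (hn : 0 < n) (hk : 0 < k)
    (hτ : tau s n k = t + 1) (F : Finset ℕ)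
    (hF : ∀ a ∈ F, Surv K s t (a / 4) ∧ Bad s n k a) :
    F.card ≤ 18 * (SS K s (tp n k)).card := by
  have htp : tp n k ≤ t := by unfold tau at hτ; omega
  obtain ⟨g, hg⟩ : ∃ g : ℕ → ℕ, g = fun a => a / 4 ^ (tau s n k - tp n k) := ⟨_, rfl⟩
  have h1 := card_le_mul_card_image (f := g) F 18 (by
    intro a' _
    apply bad_block hs hn hk a'
    intro a ha
    rw [mem_filter] at ha
    exact ⟨(hF a ha.1).2, by rw [← ha.2, hg]⟩)
  refine h1.trans (Nat.mul_le_mul_left _ (card_le_card ?_))
  intro a' ha'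
  rw [mem_image] at ha'
  obtain ⟨a, ha, rfl⟩ := ha'
  rw [mem_SS]
  have h2 := surv_anc (hF a ha).1 htp
  rw [Nat.div_div_eq_div_mul, ← pow_succ'] at h2
  rw [hg]
  convert h2 using 3
  omega

lemma clog_sq {n : ℕ} : n ^ 2 ≤ 2 ^ (2 * Nat.clog 2 n) := by
  rw [mul_comm, pow_mul]
  exact Nat.pow_le_pow_left (Nat.le_pow_clog (by norm_num) n) 2

theorem growth {K : Set ℕ} {δ : ℝ} (hδ : 0 < δ)
    (hK : ∀ a ∈ K, ∀ b ∈ K, a < b → (1 + δ) * (a : ℝ) < (b : ℝ)) (hpos : ∀ k ∈ K, 0 < k)
    {B : ℕ} (hB : (4 : ℝ) ≤ (1 + δ) ^ B) {s : ℕ} (hs : 2 ≤ s) (hsB : 18 * B ≤ 2 ^ (s - 1)) :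
    ∀ t t', t' ≤ t → 2 ^ (t - t') * (SS K s t').card ≤ (SS K s t).card := by
  classical
  intro t
  induction t with
  | zero =>
    intro t' ht'
    obtain rfl : t' = 0 := by omega
    simp
  | succ t ih =>
    -- it suffices to compare `t` with `t + 1`
    suffices hmain : 2 * (SS K s t).card ≤ (SS K s (t + 1)).card by
      intro t' ht'
      rcases Nat.eq_or_lt_of_le ht' with rfl | hlt
      · simp
      · have h1 := ih t' (by omega)
        rw [show t + 1 - t' = (t - t') + 1 by omega, pow_succ]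
        calc 2 ^ (t - t') * 2 * (SS K s t').card = 2 * (2 ^ (t - t') * (SS K s t').card) := by ring
          _ ≤ 2 * (SS K s t).card := Nat.mul_le_mul_left _ h1
          _ ≤ _ := hmain
    -- all children
    obtain ⟨Ch, hCh⟩ : ∃ Ch : Finset ℕ, Ch = (range (4 ^ (t + 1))).filter
      (fun a => Surv K s t (a / 4)) := ⟨_, rfl⟩
    have hChcard : 4 * (SS K s t).card ≤ Ch.card := by
      have h1 : ((SS K s t) ×ˢ (range 4)).card ≤ Ch.card := by
        apply card_le_card_of_injOn (fun p => 4 * p.1 + p.2)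
        · rintro ⟨a, r⟩ har
          simp only [coe_product, Set.mem_prod, mem_coe, mem_range] at har
          obtain ⟨ha, hr⟩ := har
          rw [mem_SS] at ha
          have e1 : (4 * a + r) / 4 = a := by omega
          simp only [hCh, coe_filter, mem_range]
          refine ⟨?_, ?_⟩
          · have := ha.1
            have e2 : 4 ^ (t + 1) = 4 * 4 ^ t := by rw [pow_succ']
            show 4 * a + r < 4 ^ (t + 1)
            omega
          · show Surv K s t ((4 * a + r) / 4)
            rw [e1]; exact ha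
        · rintro ⟨a, r⟩ har ⟨a', r'⟩ har' h
          simp only [coe_product, Set.mem_prod, mem_coe, mem_range] at har har' h
          ext <;> simp only <;> omega
      rw [card_product, card_range] at h1
      omega
    -- killed children
    obtain ⟨kill, hkill⟩ : ∃ kill : ℕ → ℕ → Finset ℕ, kill = fun n k =>
      Ch.filter (fun a => Bad s n k a) := ⟨_, rfl⟩
    obtain ⟨KS, hKS⟩ : ∃ KS : ℕ → Finset ℕ, KS = fun n =>
      (range (4 ^ (t + 1) + 1)).filter (fun k => k ∈ K ∧ tau s n k = t + 1) := ⟨_, rfl⟩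
    have hsub : Ch \ ((Icc 1 (4 ^ (t + 1))).biUnion fun n => (KS n).biUnion fun k => kill n k) ⊆
        SS K s (t + 1) := by
      intro a ha
      rw [mem_sdiff] at ha
      rw [hCh, mem_filter, mem_range] at ha
      obtain ⟨⟨h1, h2⟩, h3⟩ := ha
      rw [mem_SS]
      refine surv_succ h1 h2 fun n k hn hk hτ hbad => h3 ?_
      have hk0 := hpos k hk
      have hle : 2 * n * k ≤ 4 ^ (t + 1) :=
        tp_le.trans (Nat.pow_le_pow_right (by norm_num) (by unfold tau at hτ; omega))
      have hn' : n ≤ 2 * n * k := by nlinarith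
      have hk' : k ≤ 2 * n * k := by nlinarith
      rw [mem_biUnion]
      refine ⟨n, mem_Icc.2 ⟨hn, hn'.trans hle⟩, ?_⟩
      rw [mem_biUnion]
      refine ⟨k, ?_, ?_⟩
      · rw [hKS]
        simp only [mem_filter, mem_range]
        exact ⟨by omega, hk, hτ⟩
      · rw [hkill]
        simp only [mem_filter]
        rw [hCh, mem_filter, mem_range]
        exact ⟨⟨h1, h2⟩, hbad⟩
    -- the size of one killed set
    have hone : ∀ n ∈ Icc 1 (4 ^ (t + 1)), ∀ k ∈ KS n,
        (2 ^ (s - 1) * n ^ 2) * (kill n k).card ≤ 18 * (SS K s t).card := by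
      intro n hn k hk
      rw [mem_Icc] at hn
      rw [hKS] at hk
      simp only [mem_filter, mem_range] at hk
      obtain ⟨_, hkK, hτ⟩ := hk
      have h1 : (kill n k).card ≤ 18 * (SS K s (tp n k)).card := by
        apply killed_card (K := K) (t := t) hs (by omega) (hpos k hkK) hτ
        intro a ha
        rw [hkill] at ha
        simp only [mem_filter] at ha
        rw [hCh, mem_filter] at ha
        exact ⟨ha.1.2, ha.2⟩
      have h2 := ih (tp n k) (by unfold tau at hτ; omega)
      have h3 : t - tp n k = 2 * Nat.clog 2 n + (s - 1) := by unfold tau at hτ; omega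
      rw [h3, pow_add] at h2
      calc (2 ^ (s - 1) * n ^ 2) * (kill n k).card
          ≤ (2 ^ (s - 1) * 2 ^ (2 * Nat.clog 2 n)) * (18 * (SS K s (tp n k)).card) :=
            Nat.mul_le_mul (Nat.mul_le_mul_left _ clog_sq) h1
        _ = 18 * (2 ^ (2 * Nat.clog 2 n) * 2 ^ (s - 1) * (SS K s (tp n k)).card) := by ring
        _ ≤ 18 * (SS K s t).card := Nat.mul_le_mul_left _ h2
    have hKScard : ∀ n ∈ Icc 1 (4 ^ (t + 1)), (KS n).card ≤ B := by
      intro n hn
      rw [mem_Icc] at hn
      apply lac_card hδ hK hpos hB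
      · intro k hk
        rw [hKS] at hk
        simp only [mem_filter, mem_range] at hk
        exact hk.2.1
      · intro k hk k' hk'
        rw [hKS] at hk hk'
        simp only [mem_filter, mem_range] at hk hk'
        have h1 := tp_pos (n := n) (by omega) (hpos k hk.2.1)
        have h2 := tp_le (n := n) (k := k')
        have h3 : tp n k = tp n k' := by
          have e1 := hk.2.2
          have e2 := hk'.2.2
          unfold tau at e1 e2
          omega
        have h4 : 0 < tp n k' := by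
          unfold tp
          apply Nat.clog_pos (by norm_num)
          have := hpos k' hk'.2.1
          nlinarith
        have h5 : 4 ^ tp n k' = 4 * 4 ^ (tp n k' - 1) := by
          rw [← pow_succ']; congr 1; omega
        rw [h3] at h1
        have h6 : 2 * n * k' < 4 * (2 * n * k) := by omega
        have h7 : (2 * n) * k' < (2 * n) * (4 * k) := by
          calc (2 * n) * k' < 4 * (2 * n * k) := h6
            _ = (2 * n) * (4 * k) := by ring
        exact lt_of_mul_lt_mul_left h7 (by omega)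
    -- sum
    have hreal : ((((Icc 1 (4 ^ (t + 1))).biUnion fun n =>
        (KS n).biUnion fun k => kill n k).card : ℕ) : ℝ) ≤ 2 * (SS K s t).card := by
      have h0 : (0 : ℝ) ≤ ((SS K s t).card : ℝ) := Nat.cast_nonneg _
      have h1 : ((((Icc 1 (4 ^ (t + 1))).biUnion fun n =>
          (KS n).biUnion fun k => kill n k).card : ℕ) : ℝ) ≤
          ∑ n ∈ Icc 1 (4 ^ (t + 1)), ∑ k ∈ KS n, ((kill n k).card : ℝ) := by
        have h2 : ((Icc 1 (4 ^ (t + 1))).biUnion fun n =>
            (KS n).biUnion fun k => kill n k).card ≤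
            ∑ n ∈ Icc 1 (4 ^ (t + 1)), ∑ k ∈ KS n, (kill n k).card :=
          card_biUnion_le.trans (sum_le_sum fun n _ => card_biUnion_le)
        exact_mod_cast h2
      have hp : (0 : ℝ) < 2 ^ (s - 1) := by positivity
      have h3 : ∀ n ∈ Icc 1 (4 ^ (t + 1)), ∑ k ∈ KS n, ((kill n k).card : ℝ) ≤
          (SS K s t).card * (1 / (n : ℝ) ^ 2) := by
        intro n hn
        have hn0 : (0 : ℝ) < n := by
          have := (mem_Icc.1 hn).1
          exact_mod_cast this
        have h4 : ∀ k ∈ KS n, ((kill n k).card : ℝ) ≤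
            18 * (SS K s t).card / (2 ^ (s - 1) * (n : ℝ) ^ 2) := by
          intro k hk
          rw [le_div_iff₀ (by positivity)]
          have := hone n hn k hk
          have h5 : ((2 : ℝ) ^ (s - 1) * (n : ℝ) ^ 2) * (kill n k).card ≤
              18 * (SS K s t).card := by exact_mod_cast this
          linarith
        have h6 := sum_le_card_nsmul (KS n) _ _ h4
        rw [nsmul_eq_mul] at h6
        refine h6.trans ?_
        have h7 : ((KS n).card : ℝ) ≤ B := by exact_mod_cast hKScard n hn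
        have h8 : (18 : ℝ) * B ≤ 2 ^ (s - 1) := by exact_mod_cast hsB
        rw [mul_one_div, ← mul_div_assoc, div_le_div_iff₀ (by positivity) (by positivity)]
        have h9 : ((KS n).card : ℝ) * (18 * (SS K s t).card) ≤ 2 ^ (s - 1) * (SS K s t).card := by
          calc ((KS n).card : ℝ) * (18 * (SS K s t).card)
              ≤ B * (18 * (SS K s t).card) := mul_le_mul_of_nonneg_right h7 (by positivity)
            _ = (18 * B) * (SS K s t).card := by ring
            _ ≤ 2 ^ (s - 1) * (SS K s t).card := mul_le_mul_of_nonneg_right h8 h0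
        calc ((KS n).card : ℝ) * (18 * (SS K s t).card) * (n : ℝ) ^ 2
            ≤ 2 ^ (s - 1) * (SS K s t).card * (n : ℝ) ^ 2 :=
              mul_le_mul_of_nonneg_right h9 (by positivity)
          _ = (SS K s t).card * (2 ^ (s - 1) * (n : ℝ) ^ 2) := by ring
      have h10 : ∑ n ∈ Icc (1 : ℕ) (4 ^ (t + 1)), (1 / (n : ℝ) ^ 2) ≤ 2 := by
        have hb : ∀ m : ℕ, ∑ n ∈ Icc (1 : ℕ) (m + 1), (1 / (n : ℝ) ^ 2) ≤
            2 - 1 / ((m : ℝ) + 1) := by
          intro m
          induction m with
          | zero => norm_num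
          | succ m ihm =>
            rw [Finset.sum_Icc_succ_top (by omega)]
            have hm0 : (0 : ℝ) ≤ m := Nat.cast_nonneg m
            have : (1 : ℝ) / ((m + 1 + 1 : ℕ) : ℝ) ^ 2 + 1 / (((m + 1 : ℕ) : ℝ) + 1) ≤
                1 / ((m : ℝ) + 1) := by
              push_cast
              rw [div_add_div _ _ (by positivity) (by positivity), div_le_div_iff₀ (by positivity)
                (by positivity)]
              nlinarith [mul_nonneg hm0 hm0, mul_nonneg (mul_nonneg hm0 hm0) hm0]
            linarith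
        have h4 : 1 ≤ 4 ^ (t + 1) := Nat.one_le_pow _ _ (by norm_num)
        have := hb (4 ^ (t + 1) - 1)
        rw [Nat.sub_add_cancel h4] at this
        refine this.trans ?_
        have : (0 : ℝ) ≤ 1 / (((4 ^ (t + 1) - 1 : ℕ) : ℝ) + 1) := by positivity
        linarith
      calc ((((Icc 1 (4 ^ (t + 1))).biUnion fun n =>
          (KS n).biUnion fun k => kill n k).card : ℕ) : ℝ)
          ≤ ∑ n ∈ Icc 1 (4 ^ (t + 1)), ∑ k ∈ KS n, ((kill n k).card : ℝ) := h1
        _ ≤ ∑ n ∈ Icc (1 : ℕ) (4 ^ (t + 1)), (SS K s t).card * (1 / (n : ℝ) ^ 2) :=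
            sum_le_sum h3
        _ = (SS K s t).card * ∑ n ∈ Icc (1 : ℕ) (4 ^ (t + 1)), (1 / (n : ℝ) ^ 2) := by
            rw [mul_sum]
        _ ≤ (SS K s t).card * 2 := mul_le_mul_of_nonneg_left h10 h0
        _ = 2 * (SS K s t).card := by ring
    have hnat : ((Icc 1 (4 ^ (t + 1))).biUnion fun n =>
        (KS n).biUnion fun k => kill n k).card ≤ 2 * (SS K s t).card := by exact_mod_cast hreal
    have h1 := card_le_card hsub
    have h2 := le_card_sdiff ((Icc 1 (4 ^ (t + 1))).biUnion fun n =>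
        (KS n).biUnion fun k => kill n k) Ch
    omega

end Pool.Agent.H175R3.LacTheta
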