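import Mathlib
import Pool.Agent.H175R3.LacTheta
import Pool.Agent.H175R3.CircleCol2

set_option autoImplicit false

namespace Pool.Agent.H175R3.LacTheta

open Finset

lemma clog_le (n : ℕ) (hn : 0 < n) : 2 ^ Nat.clog 2 n ≤ 2 * n := by
  rcases Nat.lt_or_ge 1 n with h | h
  · have h1 := Nat.pow_pred_clog_lt_self (b := 2) (by norm_num) h
    have h2 : 0 < Nat.clog 2 n := Nat.clog_pos (by norm_num) h
    have h3 : 2 ^ Nat.clog 2 n = 2 * 2 ^ (Nat.clog 2 n).pred := by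
      rw [← pow_succ', Nat.pred_eq_sub_one]
      congr 1
      omega
    omega
  · obtain rfl : n = 1 := by omega
    simp

theorem exists_theta {K : Set ℕ} {δ : ℝ} (hδ : 0 < δ)
    (hK : ∀ a ∈ K, ∀ b ∈ K, a < b → (1 + δ) * (a : ℝ) < (b : ℝ)) (hpos : ∀ k ∈ K, 0 < k) :
    ∃ (C : ℕ) (θ : ℝ), 0 < C ∧ ∀ k ∈ K, CircleCol.BA C (k * θ) := by
  obtain ⟨B, hB⟩ := pow_unbounded_of_one_lt (4 : ℝ) (show (1 : ℝ) < 1 + δ by linarith)
  obtain ⟨s, hs⟩ : ∃ s, s = 18 * B + 2 := ⟨_, rfl⟩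
  have hs2 : 2 ≤ s := by omega
  have hsB : 18 * B ≤ 2 ^ (s - 1) := by
    rw [hs, show 18 * B + 2 - 1 = 18 * B + 1 by omega]
    have := Nat.lt_two_pow_self (n := 18 * B + 1)
    omega
  have hgrow := growth hδ hK hpos hB.le hs2 hsB
  have hne : ∀ t, (SS K s t).Nonempty := by
    intro t
    have h0 : 0 ∈ SS K s 0 := by
      rw [mem_SS]
      refine ⟨by norm_num, fun n k _ _ hle => ?_⟩
      unfold tau at hle
      omega
    have h1 := hgrow t 0 (Nat.zero_le t)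
    have h2 : 0 < (SS K s 0).card := card_pos.2 ⟨0, h0⟩
    rw [← card_pos]
    have h3 : 0 < 2 ^ (t - 0) * (SS K s 0).card := by positivity
    omega
  obtain ⟨X, hX⟩ : ∃ X : ℕ → Set ℝ, X = fun t => ⋃ a ∈ SS K s t,
    Set.Icc ((a : ℝ) / 4 ^ t) (((a : ℝ) + 1) / 4 ^ t) := ⟨_, rfl⟩
  have hcomp : ∀ t, IsCompact (X t) := by
    intro t
    rw [hX]
    exact (SS K s t).isCompact_biUnion fun a _ => isCompact_Icc
  have hXne : ∀ t, (X t).Nonempty := by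
    intro t
    obtain ⟨a, ha⟩ := hne t
    refine ⟨(a : ℝ) / 4 ^ t, ?_⟩
    rw [hX]
    simp only [Set.mem_iUnion]
    refine ⟨a, ha, le_rfl, ?_⟩
    apply div_le_div_of_nonneg_right (by linarith) (by positivity)
  have hXanti : ∀ t, X (t + 1) ⊆ X t := by
    intro t x hx
    rw [hX] at hx ⊢
    simp only [Set.mem_iUnion] at hx ⊢
    obtain ⟨a, ha, h1, h2⟩ := hx
    rw [mem_SS] at ha
    have h3 := surv_anc ha (Nat.le_succ t)
    rw [Nat.add_sub_cancel_left, pow_one] at h3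
    refine ⟨a / 4, mem_SS.2 h3, ?_, ?_⟩
    · refine le_trans ?_ h1
      rw [div_le_div_iff₀ (by positivity) (by positivity), pow_succ]
      have h4 : 4 * (a / 4) ≤ a := Nat.mul_div_le a 4
      have h5 : (4 : ℝ) * ((a / 4 : ℕ) : ℝ) ≤ a := by exact_mod_cast h4
      have h6 : (0 : ℝ) ≤ 4 ^ t := by positivity
      nlinarith
    · refine le_trans h2 ?_
      rw [div_le_div_iff₀ (by positivity) (by positivity), pow_succ]
      have h4 : a + 1 ≤ 4 * (a / 4 + 1) := by omega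
      have h5 : (a : ℝ) + 1 ≤ 4 * (((a / 4 : ℕ) : ℝ) + 1) := by exact_mod_cast h4
      have h6 : (0 : ℝ) ≤ 4 ^ t := by positivity
      nlinarith
  obtain ⟨θ, hθ⟩ := IsCompact.nonempty_iInter_of_sequence_nonempty_isCompact_isClosed X hXanti hXne
    (hcomp 0) (fun t => (hcomp t).isClosed)
  rw [Set.mem_iInter] at hθ
  refine ⟨16 * 4 ^ s, θ, by positivity, ?_⟩
  intro k hk n hn m
  have hx := hθ (tau s n k)
  rw [hX] at hx
  simp only [Set.mem_iUnion] at hx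
  obtain ⟨a, ha, h1, h2⟩ := hx
  rw [mem_SS] at ha
  have hbad := ha.2 n k hn hk le_rfl
  rw [Nat.sub_self, pow_zero, Nat.div_one] at hbad
  unfold Bad at hbad
  push Not at hbad
  have h3 := hbad m
  have h3' : (4 : ℝ) ^ tp n k + (n : ℝ) * k ≤ |(n : ℝ) * k * a - m * 4 ^ tau s n k| := by
    have : (((4 : ℤ) ^ (tp n k) + ((n * k : ℕ) : ℤ) : ℤ) : ℝ) ≤
        ((|((n * k * a : ℕ) : ℤ) - m * 4 ^ (tau s n k)| : ℤ) : ℝ) := by exact_mod_cast h3
    push_cast at this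
    exact this
  have hT : (0 : ℝ) < 4 ^ tau s n k := by positivity
  rw [div_le_iff₀ hT] at h1
  rw [le_div_iff₀ hT] at h2
  have hnk : (0 : ℝ) ≤ (n : ℝ) * k := by positivity
  have h4 : |(n : ℝ) * k * (θ * 4 ^ tau s n k - a)| ≤ n * k := by
    rw [abs_mul, abs_of_nonneg hnk]
    have : |θ * 4 ^ tau s n k - a| ≤ 1 := by
      rw [abs_le]; constructor <;> linarith
    nlinarith
  have h5 : (4 : ℝ) ^ tp n k ≤ |(n : ℝ) * (k * θ) - m| * 4 ^ tau s n k := by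
    have e1 : |(n : ℝ) * (k * θ) - m| * 4 ^ tau s n k =
        |(n : ℝ) * k * (θ * 4 ^ tau s n k) - m * 4 ^ tau s n k| := by
      rw [← abs_of_pos hT, ← abs_mul, abs_of_pos hT]
      congr 1
      ring
    rw [e1]
    have e2 : (n : ℝ) * k * a - m * 4 ^ tau s n k =
        ((n : ℝ) * k * (θ * 4 ^ tau s n k) - m * 4 ^ tau s n k) -
          (n : ℝ) * k * (θ * 4 ^ tau s n k - a) := by ring
    rw [e2] at h3'
    have h6 := abs_sub ((n : ℝ) * k * (θ * 4 ^ tau s n k) - m * 4 ^ tau s n k)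
      ((n : ℝ) * k * (θ * 4 ^ tau s n k - a))
    linarith
  have h6 : (4 : ℝ) ^ tau s n k = 4 ^ tp n k * 4 ^ (2 * Nat.clog 2 n + s) := by
    unfold tau
    rw [pow_add]
  rw [h6] at h5
  have h7 : (0 : ℝ) < 4 ^ tp n k := by positivity
  have h8 : 1 ≤ |(n : ℝ) * (k * θ) - m| * 4 ^ (2 * Nat.clog 2 n + s) := by
    have : (4 : ℝ) ^ tp n k * 1 ≤ 4 ^ tp n k *
        (|(n : ℝ) * (k * θ) - m| * 4 ^ (2 * Nat.clog 2 n + s)) := by linarith
    exact le_of_mul_le_mul_left this h7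
  have h9 : (4 : ℝ) ^ (2 * Nat.clog 2 n + s) ≤ ((16 * 4 ^ s : ℕ) : ℝ) * (n : ℝ) ^ 4 := by
    have e1 : 4 ^ (2 * Nat.clog 2 n + s) ≤ (16 * 4 ^ s) * n ^ 4 := by
      calc 4 ^ (2 * Nat.clog 2 n + s) = (2 ^ Nat.clog 2 n) ^ 4 * 4 ^ s := by
            rw [pow_add]
            congr 1
            rw [← pow_mul, show (4 : ℕ) = 2 ^ 2 by norm_num, ← pow_mul]
            congr 1
            ring
        _ ≤ (2 * n) ^ 4 * 4 ^ s :=
            Nat.mul_le_mul_right _ (Nat.pow_le_pow_left (clog_le n hn) 4)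
        _ = (16 * 4 ^ s) * n ^ 4 := by ring
    exact_mod_cast e1
  have hn' : (0 : ℝ) < n := by exact_mod_cast hn
  rw [div_le_iff₀ (by positivity)]
  refine h8.trans ?_
  exact mul_le_mul_of_nonneg_left h9 (abs_nonneg _)

/-- every lacunary set has finite nonrepetitive number -/
theorem lacunary_nonrepetitive (K : Set ℕ) (hpos : ∀ k ∈ K, 0 < k)
    (hK : ∃ δ : ℝ, 0 < δ ∧ ∀ a ∈ K, ∀ b ∈ K, a < b → (1 + δ) * (a : ℝ) < (b : ℝ)) :
    ∃ N : ℕ, ∃ c : ℤ → Fin N, ∀ k ∈ K, ∀ a : ℤ, ∀ n : ℕ, 0 < n →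
      ∃ i : ℕ, i < n ∧
        c (a + (i : ℤ) * (k : ℤ)) ≠ c (a + ((n : ℤ) + (i : ℤ)) * (k : ℤ)) := by
  obtain ⟨δ, hδ, hK⟩ := hK
  obtain ⟨C, θ, hC, hθ⟩ := exists_theta hδ hK hpos
  obtain ⟨q, F, hF⟩ := CircleCol.circle_coloring C hC
  refine ⟨q, fun z => F (z * θ), ?_⟩
  intro k hk a n hn
  obtain ⟨i, hi, h⟩ := hF (k * θ) (hθ k hk) (a * θ) n hn
  refine ⟨i, hi, ?_⟩
  have e1 : (((a + (i : ℤ) * (k : ℤ) : ℤ) : ℝ)) * θ = a * θ + (i : ℝ) * (k * θ) := by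
    push_cast; ring
  have e2 : (((a + ((n : ℤ) + (i : ℤ)) * (k : ℤ) : ℤ) : ℝ)) * θ =
      a * θ + ((i + n : ℕ) : ℝ) * (k * θ) := by
    push_cast; ring
  simp only [e1, e2]
  exact h

end Pool.Agent.H175R3.LacTheta
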