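import Mathlib

set_option autoImplicit false

namespace Pool.Agent.H175R3.Pat

/-! A search through all symmetric relations on `14` points with given degrees and without
triangles, written with recursors so that the kernel can run it. -/

/-- sum of `f 0, ..., f (n-1)` -/
noncomputable def sm (n : ℕ) (f : ℕ → ℕ) : ℕ :=
  Nat.rec (motive := fun _ => ℕ) 0 (fun k ih => ih + f k) n

theorem sm_zero (f : ℕ → ℕ) : sm 0 f = 0 := rfl

theorem sm_succ (n : ℕ) (f : ℕ → ℕ) : sm (n + 1) f = sm n f + f n := rfl

theorem sm_eq (n : ℕ) (f : ℕ → ℕ) : sm n f = ∑ i ∈ Finset.range n, f i := by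
  induction n with
  | zero => rfl
  | succ n ih => rw [sm_succ, ih, Finset.sum_range_succ]

theorem sm_mono {n m : ℕ} (h : n ≤ m) (f : ℕ → ℕ) : sm n f ≤ sm m f := by
  induction m, h using Nat.le_induction with
  | base => exact le_refl _
  | succ m _ ih => rw [sm_succ]; omega

theorem sm_congr {n : ℕ} {f g : ℕ → ℕ} (h : ∀ a, a < n → f a = g a) : sm n f = sm n g := by
  induction n with
  | zero => rfl
  | succ n ih => rw [sm_succ, sm_succ, ih (fun a ha => h a (by omega)), h n (by omega)]

/-- membership in a list of numbers -/
noncomputable def mem (m : ℕ) (l : List ℕ) : Bool :=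
  List.rec (motive := fun _ => Bool) false (fun a _ ih => Bool.rec ih true (Nat.beq m a)) l

theorem mem_nil (m : ℕ) : mem m [] = false := rfl

theorem mem_cons (m a : ℕ) (l : List ℕ) : mem m (a :: l) = (Nat.beq m a || mem m l) := by
  show (Bool.rec (mem m l) true (Nat.beq m a) : Bool) = _
  cases Nat.beq m a <;> rfl

/-- choose the later neighbours of the current vertex -/
noncomputable def pick (k : List (ℕ × ℕ) → ℕ → Bool) (mi : ℕ) (l : List (ℕ × ℕ)) :
    ℕ → ℕ → List ℕ → List (ℕ × ℕ) → Bool :=
  List.rec (motive := fun _ => ℕ → ℕ → List ℕ → List (ℕ × ℕ) → Bool)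
    (fun need row _ acc => Bool.rec true (k acc.reverse row) (Nat.beq need 0))
    (fun e _ ih need row rej acc =>
      Bool.rec false
        (ih need (2 * row) (e.1 :: rej) ((2 * e.1, e.2) :: acc))
        (Bool.rec
          (Bool.rec
            (Bool.rec true
              (Bool.rec
                (ih (need - 1) (2 * row + 1) rej ((2 * e.1 + 1, e.2 - 1) :: acc))
                true (mem e.1 rej))
              (Nat.beq (Nat.land e.1 mi) 0))
            true (Nat.beq e.2 0))
          true (Nat.beq need 0))) l

theorem pick_nil (k : List (ℕ × ℕ) → ℕ → Bool) (mi need row : ℕ) (rej : List ℕ)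
    (acc : List (ℕ × ℕ)) :
    pick k mi [] need row rej acc = (!(Nat.beq need 0) || k acc.reverse row) := by
  show (Bool.rec true (k acc.reverse row) (Nat.beq need 0) : Bool) = _
  cases Nat.beq need 0 <;> rfl

theorem pick_cons (k : List (ℕ × ℕ) → ℕ → Bool) (mi need row : ℕ) (rej : List ℕ)
    (acc : List (ℕ × ℕ)) (e : ℕ × ℕ) (l : List (ℕ × ℕ)) :
    pick k mi (e :: l) need row rej acc =
      ((Nat.beq need 0 || (Nat.beq e.2 0 || (!(Nat.beq (Nat.land e.1 mi) 0) || (mem e.1 rej ||
        pick k mi l (need - 1) (2 * row + 1) rej ((2 * e.1 + 1, e.2 - 1) :: acc))))) &&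
      pick k mi l need (2 * row) (e.1 :: rej) ((2 * e.1, e.2) :: acc)) := by
  show (Bool.rec false
        (pick k mi l need (2 * row) (e.1 :: rej) ((2 * e.1, e.2) :: acc))
        (Bool.rec
          (Bool.rec
            (Bool.rec true
              (Bool.rec
                (pick k mi l (need - 1) (2 * row + 1) rej ((2 * e.1 + 1, e.2 - 1) :: acc))
                true (mem e.1 rej))
              (Nat.beq (Nat.land e.1 mi) 0))
            true (Nat.beq e.2 0))
          true (Nat.beq need 0)) : Bool) = _
  cases Nat.beq need 0 <;> cases Nat.beq e.2 0 <;> cases Nat.beq (Nat.land e.1 mi) 0 <;>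
    cases mem e.1 rej <;>
    cases pick k mi l (need - 1) (2 * row + 1) rej ((2 * e.1 + 1, e.2 - 1) :: acc) <;>
    cases pick k mi l need (2 * row) (e.1 :: rej) ((2 * e.1, e.2) :: acc) <;> rfl

/-- comparison of a new row with the earlier rows -/
noncomputable def bad (rj : ℕ) (l : List ℕ) : ℕ → Bool :=
  List.rec (motive := fun _ => ℕ → Bool) (fun _ => false)
    (fun ri _ ih s => Bool.rec (ih (s + 1))
      (Bool.rec (ih (s + 1)) true (Nat.beq (Nat.shiftRight ri s) (Nat.shiftRight rj s)))
      (Nat.ble (ri + 1) rj)) l

theorem bad_nil (rj s : ℕ) : bad rj [] s = false := rfl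

theorem bad_cons (rj ri s : ℕ) (l : List ℕ) :
    bad rj (ri :: l) s = ((Nat.ble (ri + 1) rj &&
      Nat.beq (Nat.shiftRight ri s) (Nat.shiftRight rj s)) || bad rj l (s + 1)) := by
  show (Bool.rec (bad rj l (s + 1))
      (Bool.rec (bad rj l (s + 1)) true (Nat.beq (Nat.shiftRight ri s) (Nat.shiftRight rj s)))
      (Nat.ble (ri + 1) rj) : Bool) = _
  cases Nat.ble (ri + 1) rj <;>
    cases Nat.beq (Nat.shiftRight ri s) (Nat.shiftRight rj s) <;>
    cases bad rj l (s + 1) <;> rfl

/-- the search: all rows are filled one after the other -/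
noncomputable def search (leaf : List ℕ → Bool) (n : ℕ) : List (ℕ × ℕ) → List ℕ → Bool :=
  Nat.rec (motive := fun _ => List (ℕ × ℕ) → List ℕ → Bool)
    (fun _ done => leaf done)
    (fun n ih todo done =>
      List.rec (motive := fun _ => Bool) true
        (fun e rest _ => pick (fun rest' row =>
            Bool.rec (ih rest' (row :: done)) true (bad row done (n + 1)))
          e.1 rest e.2 (2 * e.1) [] []) todo) n

theorem search_zero (leaf : List ℕ → Bool) (todo : List (ℕ × ℕ)) (done : List ℕ) :
    search leaf 0 todo done = leaf done := rfl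

theorem search_succ (leaf : List ℕ → Bool) (n : ℕ) (e : ℕ × ℕ) (rest : List (ℕ × ℕ))
    (done : List ℕ) :
    search leaf (n + 1) (e :: rest) done =
      pick (fun rest' row => bad row done (n + 1) || search leaf n rest' (row :: done))
          e.1 rest e.2 (2 * e.1) [] [] := by
  have : (fun rest' row => bad row done (n + 1) || search leaf n rest' (row :: done)) =
    (fun (rest' : List (ℕ × ℕ)) (row : ℕ) =>
      (Bool.rec (search leaf n rest' (row :: done)) true (bad row done (n + 1)) : Bool)) := by
    funext a b
    cases bad b done (n + 1) <;> rfl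
  rw [this]
  rfl

/-- the number with binary digits `f 0, ..., f (n-1)` -/
def enc (f : ℕ → Bool) : ℕ → ℕ
  | 0 => 0
  | n + 1 => 2 * enc f n + (f n).toNat

theorem enc_succ (f : ℕ → Bool) (n : ℕ) : enc f (n + 1) = 2 * enc f n + (f n).toNat := rfl

theorem toNat_le (b : Bool) : b.toNat ≤ 1 := by cases b <;> decide

theorem enc_inj {f g : ℕ → Bool} {n : ℕ} (h : enc f n = enc g n) : ∀ a, a < n → f a = g a := by
  induction n with
  | zero => intro a ha; omega
  | succ n ih =>
    rw [enc_succ, enc_succ] at h
    have h1 := toNat_le (f n)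
    have h2 := toNat_le (g n)
    have h3 : enc f n = enc g n := by omega
    have h4 : (f n).toNat = (g n).toNat := by omega
    intro a ha
    rcases Nat.lt_or_ge a n with h5 | h5
    · exact ih h3 a h5
    · have : a = n := by omega
      subst this
      revert h4
      cases f a <;> cases g a <;> simp

theorem enc_congr {f g : ℕ → Bool} {n : ℕ} (h : ∀ a, a < n → f a = g a) :
    enc f n = enc g n := by
  induction n with
  | zero => rfl
  | succ n ih => rw [enc_succ, enc_succ, ih (fun a ha => h a (by omega)), h n (by omega)]

theorem enc_lt {f g : ℕ → Bool} {n j : ℕ} (hj : j < n) (h : ∀ a, a < j → f a = g a)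
    (hf : f j = false) (hg : g j = true) : enc f n < enc g n := by
  induction n with
  | zero => omega
  | succ n ih =>
    rw [enc_succ, enc_succ]
    have h1 := toNat_le (f n)
    rcases Nat.lt_or_ge j n with h5 | h5
    · have := ih h5
      omega
    · have : j = n := by omega
      subst this
      rw [hf, hg, enc_congr h]
      simp

theorem enc_lt_pow (f : ℕ → Bool) (n : ℕ) : enc f n < 2 ^ n := by
  induction n with
  | zero => show 0 < 2 ^ 0; norm_num
  | succ n ih =>
    rw [enc_succ, pow_succ]
    have h1 := toNat_le (f n)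
    omega

theorem enc_land (f g : ℕ → Bool) (n : ℕ) :
    Nat.land (enc f n) (enc g n) = enc (fun a => f a && g a) n := by
  induction n with
  | zero => show Nat.land 0 0 = 0; decide
  | succ n ih =>
    rw [enc_succ, enc_succ, enc_succ, ← ih]
    have e1 : 2 * enc f n + (f n).toNat = Nat.bit (f n) (enc f n) := by
      rw [Nat.bit_val]
    have e2 : 2 * enc g n + (g n).toNat = Nat.bit (g n) (enc g n) := by
      rw [Nat.bit_val]
    have e3 : 2 * Nat.land (enc f n) (enc g n) + (f n && g n).toNat
        = Nat.bit (f n && g n) (Nat.land (enc f n) (enc g n)) := by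
      rw [Nat.bit_val]
    rw [e1, e2, e3]
    exact Nat.land_bit _ _ _ _

theorem enc_eq_zero {f : ℕ → Bool} {n : ℕ} (h : ∀ a, a < n → f a = false) : enc f n = 0 := by
  induction n with
  | zero => rfl
  | succ n ih => rw [enc_succ, ih (fun a ha => h a (by omega)), h n (by omega)]; rfl

theorem enc_shift (f : ℕ → Bool) (n k : ℕ) : Nat.shiftRight (enc f (n + k)) k = enc f n := by
  induction k with
  | zero => rfl
  | succ k ih =>
    have h1 : enc f (n + (k + 1)) = 2 * enc f (n + k) + (f (n + k)).toNat := rfl
    have h2 := toNat_le (f (n + k))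
    show (enc f (n + (k + 1))) >>> (k + 1) = enc f n
    rw [Nat.add_comm k 1, Nat.shiftRight_add, Nat.shiftRight_one]
    have h3 : enc f (n + (1 + k)) / 2 = enc f (n + k) := by
      rw [Nat.add_comm 1 k, h1]; omega
    rw [h3]
    exact ih

/-- the relations which we want to find, in a canonical labelling -/
structure Valid (g : ℕ → ℕ → Bool) : Prop where
  symm : ∀ a b, g a b = g b a
  irr : ∀ a, g a a = false
  deg : ∀ a, a < 14 → sm 14 (fun b => (g a b).toNat) = 5
  tri : ∀ a b c, g a b = true → g b c = true → g a c = true → False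
  twin : ∀ i j k, i < j → j < k → k < 14 → (∀ a, a < i → g a j = g a k) → g i k = true →
    g i j = true
  rows : ∀ i j, i < j → j < 14 → (∀ a, a < i → g a i = g a j) → g i j = false →
    enc (g j) 14 ≤ enc (g i) 14

/-- the state of vertex `c` before row `i` is chosen -/
noncomputable def ent (g : ℕ → ℕ → Bool) (i c : ℕ) : ℕ × ℕ :=
  (enc (fun a => g a c) i, 5 - sm i (fun a => (g a c).toNat))

/-- the rows chosen so far -/
def dn (g : ℕ → ℕ → Bool) : ℕ → List ℕ
  | 0 => []
  | i + 1 => enc (g i) 14 :: dn g i

theorem bad_false {g : ℕ → ℕ → Bool} (hg : Valid g) (j : ℕ) (hj : j < 14) :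
    ∀ i, i ≤ j → bad (enc (g j) 14) (dn g i) (14 - i) = false := by
  intro i
  induction i with
  | zero => intro _; rfl
  | succ i ih =>
    intro hi
    rw [show dn g (i + 1) = enc (g i) 14 :: dn g i from rfl, bad_cons]
    have h1 : 14 - (i + 1) + 1 = 14 - i := by omega
    rw [h1, ih (by omega), Bool.or_false]
    by_contra hcon
    have hcon' : (Nat.ble (enc (g i) 14 + 1) (enc (g j) 14) &&
      Nat.beq (Nat.shiftRight (enc (g i) 14) (14 - (i + 1)))
        (Nat.shiftRight (enc (g j) 14) (14 - (i + 1)))) = true := by
      cases hh : (Nat.ble (enc (g i) 14 + 1) (enc (g j) 14) &&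
        Nat.beq (Nat.shiftRight (enc (g i) 14) (14 - (i + 1)))
        (Nat.shiftRight (enc (g j) 14) (14 - (i + 1))))
      · exact absurd hh hcon
      · rfl
    rw [Bool.and_eq_true] at hcon'
    obtain ⟨h2, h3⟩ := hcon'
    have h2' : enc (g i) 14 + 1 ≤ enc (g j) 14 := Nat.le_of_ble_eq_true h2
    have h3' := Nat.eq_of_beq_eq_true h3
    have e : 14 = (i + 1) + (14 - (i + 1)) := by omega
    have e1 : Nat.shiftRight (enc (g i) 14) (14 - (i + 1)) = enc (g i) (i + 1) := by
      conv_lhs => rw [show enc (g i) 14 = enc (g i) ((i + 1) + (14 - (i + 1))) by rw [← e]]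
      exact enc_shift _ _ _
    have e2 : Nat.shiftRight (enc (g j) 14) (14 - (i + 1)) = enc (g j) (i + 1) := by
      conv_lhs => rw [show enc (g j) 14 = enc (g j) ((i + 1) + (14 - (i + 1))) by rw [← e]]
      exact enc_shift _ _ _
    rw [e1, e2] at h3'
    have h4 := enc_inj h3'
    have h5 := hg.rows i j (by omega) hj (fun a ha => by
      rw [hg.symm a i, hg.symm a j]; exact h4 a (by omega))
      (by rw [hg.symm i j, ← h4 i (by omega)]; exact hg.irr i)
    omega

theorem sm_lt {n m : ℕ} (h : n < m) (f : ℕ → ℕ) : sm n f + f n ≤ sm m f := by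
  have := sm_mono (n := n + 1) (m := m) h f
  rwa [sm_succ] at this

theorem deg_col {g : ℕ → ℕ → Bool} (hg : Valid g) (c : ℕ) (hc : c < 14) :
    sm 14 (fun a => (g a c).toNat) = 5 := by
  rw [← hg.deg c hc]
  exact sm_congr (fun a _ => by rw [hg.symm a c])

theorem pick_sound {g : ℕ → ℕ → Bool} (hg : Valid g) (k : List (ℕ × ℕ) → ℕ → Bool) (i : ℕ)
    (hi : i < 14) : ∀ n c need row rej acc, c + n = 14 → i < c →
    need = 5 - sm c (fun a => (g i a).toNat) → row = enc (g i) c →
    (∀ m, mem m rej = true → ∃ c0, i < c0 ∧ c0 < c ∧ g i c0 = false ∧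
      m = enc (fun a => g a c0) i) →
    acc.reverse = (List.range' (i + 1) (c - (i + 1))).map (ent g (i + 1)) →
    pick k (enc (fun a => g a i) i) ((List.range' c n).map (ent g i)) need row rej acc = true →
    k ((List.range' (i + 1) (13 - i)).map (ent g (i + 1))) (enc (g i) 14) = true := by
  intro n
  induction n with
  | zero =>
    intro c need row rej acc hc hic hneed hrow _ hacc hp
    have hc' : c = 14 := by omega
    subst hc'
    rw [List.range'_zero, List.map_nil, pick_nil, hneed, hg.deg i hi] at hp
    have h1 : 14 - (i + 1) = 13 - i := by omega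
    rw [hacc, hrow, h1] at hp
    simpa using hp
  | succ n ih =>
    intro c need row rej acc hc hic hneed hrow hrej hacc hp
    rw [List.range'_succ, List.map_cons, pick_cons, Bool.and_eq_true] at hp
    obtain ⟨hp1, hp2⟩ := hp
    have hcl : c - (i + 1) + 1 = c + 1 - (i + 1) := by omega
    have hrev : ∀ x : ℕ × ℕ, x = ent g (i + 1) c → (x :: acc).reverse =
        (List.range' (i + 1) (c + 1 - (i + 1))).map (ent g (i + 1)) := by
      intro x hx
      rw [List.reverse_cons, hacc, ← hcl, List.range'_concat, List.map_append, hx]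
      have : i + 1 + 1 * (c - (i + 1)) = c := by omega
      rw [this]
      rfl
    cases hgc : g i c with
    | true =>
      have a1 : need ≠ 0 := by
        rw [hneed]
        have h1 := sm_lt (show c < 14 by omega) (fun a => (g i a).toNat)
        rw [hg.deg i hi] at h1
        simp only [hgc, Bool.toNat_true] at h1
        omega
      have a2' : sm i (fun a => (g a c).toNat) < 5 := by
        have h1 := sm_lt hi (fun a => (g a c).toNat)
        rw [deg_col hg c (by omega)] at h1
        simp only [hgc, Bool.toNat_true] at h1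
        omega
      have a2 : (ent g i c).2 ≠ 0 := by
        show 5 - sm i (fun a => (g a c).toNat) ≠ 0
        omega
      have a3 : Nat.land (ent g i c).1 (enc (fun a => g a i) i) = 0 := by
        show Nat.land (enc (fun a => g a c) i) (enc (fun a => g a i) i) = 0
        rw [enc_land]
        apply enc_eq_zero
        intro a _
        cases h1 : g a c with
        | false => rfl
        | true =>
          cases h2 : g a i with
          | false => rfl
          | true => exact (hg.tri a i c h2 hgc h1).elim
      have a4 : mem (ent g i c).1 rej = false := by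
        cases h1 : mem (ent g i c).1 rej with
        | false => rfl
        | true =>
          obtain ⟨c0, h2, h3, h4, h5⟩ := hrej _ h1
          have h6 : enc (fun a => g a c) i = enc (fun a => g a c0) i := h5
          have h7 := enc_inj h6
          have h8 := hg.twin i c0 c h2 h3 (by omega) (fun a ha => (h7 a ha).symm) hgc
          rw [h4] at h8
          exact absurd h8 (by decide)
      have b1 : Nat.beq need 0 = false := by
        cases hb : Nat.beq need 0 with
        | false => rfl
        | true => exact absurd (Nat.eq_of_beq_eq_true hb) a1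
      have b2 : Nat.beq (ent g i c).2 0 = false := by
        cases hb : Nat.beq (ent g i c).2 0 with
        | false => rfl
        | true => exact absurd (Nat.eq_of_beq_eq_true hb) a2
      have b3 : Nat.beq (Nat.land (ent g i c).1 (enc (fun a => g a i) i)) 0 = true := by
        rw [a3]; rfl
      rw [b1, b2, b3, a4, Bool.not_true, Bool.false_or, Bool.false_or, Bool.false_or,
        Bool.false_or] at hp1
      apply ih (c + 1) (need - 1) (2 * row + 1) rej _ (by omega) (by omega) _ _ _ _ hp1
      · rw [sm_succ, hneed, hgc]
        simp only [Bool.toNat_true]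
        omega
      · rw [enc_succ, hrow, hgc]
        rfl
      · intro m hm
        obtain ⟨c0, h2, h3, h4, h5⟩ := hrej m hm
        exact ⟨c0, h2, by omega, h4, h5⟩
      · apply hrev
        show (2 * enc (fun a => g a c) i + 1, 5 - sm i (fun a => (g a c).toNat) - 1) =
          (enc (fun a => g a c) (i + 1), 5 - sm (i + 1) (fun a => (g a c).toNat))
        rw [enc_succ, sm_succ, hgc]
        simp only [Bool.toNat_true, Prod.mk.injEq, true_and]
        omega
    | false =>
      apply ih (c + 1) need (2 * row) ((ent g i c).1 :: rej) _ (by omega) (by omega) _ _ _ _ hp2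
      · rw [sm_succ, hneed, hgc]
        simp
      · rw [enc_succ, hrow, hgc]
        rfl
      · intro m hm
        rw [mem_cons, Bool.or_eq_true] at hm
        rcases hm with hm | hm
        · exact ⟨c, hic, by omega, hgc, Nat.eq_of_beq_eq_true hm⟩
        · obtain ⟨c0, h2, h3, h4, h5⟩ := hrej m hm
          exact ⟨c0, h2, by omega, h4, h5⟩
      · apply hrev
        show (2 * enc (fun a => g a c) i, 5 - sm i (fun a => (g a c).toNat)) =
          (enc (fun a => g a c) (i + 1), 5 - sm (i + 1) (fun a => (g a c).toNat))
        rw [enc_succ, sm_succ, hgc]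
        simp

theorem search_sound {g : ℕ → ℕ → Bool} (hg : Valid g) (leaf : List ℕ → Bool) :
    ∀ n i, i + n = 14 →
    search leaf n ((List.range' i n).map (ent g i)) (dn g i) = true →
    leaf (dn g 14) = true := by
  intro n
  induction n with
  | zero =>
    intro i hi h
    have : i = 14 := by omega
    subst this
    rwa [search_zero] at h
  | succ n ih =>
    intro i hi h
    rw [List.range'_succ, List.map_cons, search_succ] at h
    have h1 := pick_sound hg _ i (by omega) n (i + 1) (ent g i i).2 (2 * (ent g i i).1) [] []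
      (by omega) (by omega) ?_ ?_ ?_ ?_ h
    · have h2 := bad_false hg i (by omega) i (le_refl _)
      have h3 : 14 - i = n + 1 := by omega
      have h4 : 13 - i = n := by omega
      rw [h3] at h2
      rw [h2, Bool.false_or, h4] at h1
      exact ih (i + 1) (by omega) h1
    · show 5 - sm i (fun a => (g a i).toNat) = 5 - sm (i + 1) (fun a => (g i a).toNat)
      rw [sm_succ, hg.irr i]
      simp only [Bool.toNat_false, add_zero]
      congr 1
      exact sm_congr (fun a _ => by rw [hg.symm a i])
    · show 2 * enc (fun a => g a i) i = enc (g i) (i + 1)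
      rw [enc_succ, hg.irr i]
      simp only [Bool.toNat_false, add_zero]
      congr 1
      exact enc_congr (fun a _ => by rw [hg.symm a i])
    · intro m hm
      rw [mem_nil] at hm
      exact absurd hm (by decide)
    · simp

theorem search_main {g : ℕ → ℕ → Bool} (hg : Valid g) (leaf : List ℕ → Bool)
    (h : search leaf 14 (List.replicate 14 (0, 5)) [] = true) : leaf (dn g 14) = true := by
  apply search_sound hg leaf 14 0 (by norm_num)
  have : (List.range' 0 14).map (ent g 0) = List.replicate 14 (0, 5) := by
    rfl
  rw [this]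
  exact h

end Pool.Agent.H175R3.Pat
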