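import Mathlib
import Pool.Agent.H175R3.PatSearch

set_option autoImplicit false

namespace Pool.Agent.H175R3.Pat

/-- a relabelled relation on `Fin 14`, extended to all numbers -/
def ex (gg : Fin 14 → Fin 14 → Bool) (π : Equiv.Perm (Fin 14)) (a b : ℕ) : Bool :=
  if h : a < 14 ∧ b < 14 then gg (π ⟨a, h.1⟩) (π ⟨b, h.2⟩) else false

theorem ex_fin (gg : Fin 14 → Fin 14 → Bool) (π : Equiv.Perm (Fin 14)) (a b : Fin 14) :
    ex gg π a b = gg (π a) (π b) := by
  unfold ex
  rw [dif_pos ⟨a.2, b.2⟩]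

theorem exists_canon (gg : Fin 14 → Fin 14 → Bool) (hs : ∀ a b, gg a b = gg b a)
    (hi : ∀ a, gg a a = false) (hd : ∀ a, ∑ b, (gg a b).toNat = 5)
    (ht : ∀ a b c, gg a b = true → gg b c = true → gg a c = true → False) :
    ∃ π : Equiv.Perm (Fin 14), Valid (ex gg π) := by
  classical
  obtain ⟨π, -, hπ⟩ := Finset.exists_max_image (Finset.univ : Finset (Equiv.Perm (Fin 14)))
    (fun π => toLex (fun i : Fin 14 => enc (ex gg π i) 14)) ⟨1, Finset.mem_univ _⟩
  have key : ∀ (π' : Equiv.Perm (Fin 14)) (i : Fin 14),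
      (∀ a : Fin 14, a < i → enc (ex gg π a) 14 = enc (ex gg π' a) 14) →
      ¬ enc (ex gg π i) 14 < enc (ex gg π' i) 14 := by
    intro π' i h1 h2
    have h3 := hπ π' (Finset.mem_univ _)
    have h4 : toLex (fun i : Fin 14 => enc (ex gg π i) 14) <
        toLex (fun i : Fin 14 => enc (ex gg π' i) 14) := ⟨i, h1, h2⟩
    exact absurd h4 (not_lt.2 h3)
  have hsy : ∀ a b, ex gg π a b = ex gg π b a := by
    intro a b
    unfold ex
    by_cases h : a < 14 ∧ b < 14
    · rw [dif_pos h, dif_pos h.symm]; exact hs _ _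
    · rw [dif_neg h, dif_neg (fun hh => h hh.symm)]
  have hir : ∀ a, ex gg π a a = false := by
    intro a
    unfold ex
    by_cases h : a < 14 ∧ a < 14
    · rw [dif_pos h]; exact hi _
    · rw [dif_neg h]
  -- rows before `i` do not change under a transposition of two twins
  have same : ∀ (j k : Fin 14) (a : ℕ), a < 14 → a ≠ j → a ≠ k →
      ex gg π a j = ex gg π a k →
      ∀ c, c < 14 → ex gg π a c = ex gg ((Equiv.swap j k).trans π) a c := by
    intro j k a ha haj hak hjk c hc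
    have e1 : ex gg π a c = gg (π ⟨a, ha⟩) (π ⟨c, hc⟩) := ex_fin gg π ⟨a, ha⟩ ⟨c, hc⟩
    have e2 : ex gg ((Equiv.swap j k).trans π) a c =
        gg (π (Equiv.swap j k ⟨a, ha⟩)) (π (Equiv.swap j k ⟨c, hc⟩)) :=
      ex_fin gg _ ⟨a, ha⟩ ⟨c, hc⟩
    have e3 : Equiv.swap j k ⟨a, ha⟩ = ⟨a, ha⟩ := by
      apply Equiv.swap_apply_of_ne_of_ne
      · intro h; exact haj (by rw [← h])
      · intro h; exact hak (by rw [← h])
    have f1 : ex gg π a j = gg (π ⟨a, ha⟩) (π j) := ex_fin gg π ⟨a, ha⟩ j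
    have f2 : ex gg π a k = gg (π ⟨a, ha⟩) (π k) := ex_fin gg π ⟨a, ha⟩ k
    rw [e1, e2, e3]
    by_cases hcj : (⟨c, hc⟩ : Fin 14) = j
    · rw [hcj, Equiv.swap_apply_left, ← f1, ← f2]; exact hjk
    · by_cases hck : (⟨c, hc⟩ : Fin 14) = k
      · rw [hck, Equiv.swap_apply_right, ← f1, ← f2]; exact hjk.symm
      · rw [Equiv.swap_apply_of_ne_of_ne hcj hck]
  refine ⟨π, hsy, hir, ?_, ?_, ?_, ?_⟩
  · intro a ha
    rw [sm_eq, Finset.sum_range]
    have h1 : ∀ b : Fin 14, (ex gg π a b).toNat = (gg (π ⟨a, ha⟩) (π b)).toNat := by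
      intro b
      rw [← ex_fin gg π ⟨a, ha⟩ b]
    rw [Finset.sum_congr rfl (fun b _ => h1 b)]
    rw [Equiv.sum_comp π (fun b => (gg (π ⟨a, ha⟩) b).toNat)]
    exact hd _
  · intro a b c h1 h2 h3
    unfold ex at h1 h2 h3
    by_cases hab : a < 14 ∧ b < 14
    · by_cases hbc : b < 14 ∧ c < 14
      · rw [dif_pos hab] at h1
        rw [dif_pos hbc] at h2
        rw [dif_pos ⟨hab.1, hbc.2⟩] at h3
        exact ht _ _ _ h1 h2 h3
      · rw [dif_neg hbc] at h2
        exact absurd h2 (by decide)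
    · rw [dif_neg hab] at h1
      exact absurd h1 (by decide)
  · intro i j k hij hjk hk htw hik
    by_contra hcon
    have hcon' : ex gg π i j = false := by
      cases h : ex gg π i j with
      | false => rfl
      | true => exact absurd h hcon
    have hj : j < 14 := by omega
    have hi14 : i < 14 := by omega
    apply key ((Equiv.swap (⟨j, hj⟩ : Fin 14) ⟨k, hk⟩).trans π) ⟨i, hi14⟩
    · intro a ha
      have ha' : (a : ℕ) < i := ha
      apply enc_congr
      intro c hc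
      exact same ⟨j, hj⟩ ⟨k, hk⟩ a a.2 (by show (a : ℕ) ≠ j; omega) (by show (a : ℕ) ≠ k; omega)
        (htw a ha') c hc
    · apply enc_lt (j := j) hj
      · intro c hc
        show ex gg π i c = ex gg _ i c
        have e1 : ex gg π i c = gg (π ⟨i, hi14⟩) (π ⟨c, by omega⟩) :=
          ex_fin gg π ⟨i, hi14⟩ ⟨c, by omega⟩
        have e2 : ex gg ((Equiv.swap (⟨j, hj⟩ : Fin 14) ⟨k, hk⟩).trans π) i c =
            gg (π (Equiv.swap (⟨j, hj⟩ : Fin 14) ⟨k, hk⟩ ⟨i, hi14⟩))
              (π (Equiv.swap (⟨j, hj⟩ : Fin 14) ⟨k, hk⟩ ⟨c, by omega⟩)) :=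
          ex_fin gg _ ⟨i, hi14⟩ ⟨c, by omega⟩
        rw [e1, e2, Equiv.swap_apply_of_ne_of_ne, Equiv.swap_apply_of_ne_of_ne]
        · intro h; have := congrArg Fin.val h; simp only at this; omega
        · intro h; have := congrArg Fin.val h; simp only at this; omega
        · intro h; have := congrArg Fin.val h; simp only at this; omega
        · intro h; have := congrArg Fin.val h; simp only at this; omega
      · exact hcon'
      · show ex gg _ i j = true
        have e2 : ex gg ((Equiv.swap (⟨j, hj⟩ : Fin 14) ⟨k, hk⟩).trans π) i j =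
            gg (π (Equiv.swap (⟨j, hj⟩ : Fin 14) ⟨k, hk⟩ ⟨i, hi14⟩))
              (π (Equiv.swap (⟨j, hj⟩ : Fin 14) ⟨k, hk⟩ ⟨j, hj⟩)) :=
          ex_fin gg _ ⟨i, hi14⟩ ⟨j, hj⟩
        rw [e2, Equiv.swap_apply_left, Equiv.swap_apply_of_ne_of_ne]
        · have e3 : ex gg π i k = gg (π ⟨i, hi14⟩) (π ⟨k, hk⟩) :=
            ex_fin gg π ⟨i, hi14⟩ ⟨k, hk⟩
          rw [← e3]; exact hik
        · intro h; have := congrArg Fin.val h; simp only at this; omega
        · intro h; have := congrArg Fin.val h; simp only at this; omega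
  · intro i j hij hj htw hgij
    by_contra hcon
    have hi14 : i < 14 := by omega
    apply key ((Equiv.swap (⟨i, hi14⟩ : Fin 14) ⟨j, hj⟩).trans π) ⟨i, hi14⟩
    · intro a ha
      have ha' : (a : ℕ) < i := ha
      apply enc_congr
      intro c hc
      exact same ⟨i, hi14⟩ ⟨j, hj⟩ a a.2 (by show (a : ℕ) ≠ i; omega)
        (by show (a : ℕ) ≠ j; omega) (htw a ha') c hc
    · have h1 : enc (ex gg ((Equiv.swap (⟨i, hi14⟩ : Fin 14) ⟨j, hj⟩).trans π) i) 14 =
          enc (ex gg π j) 14 := by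
        apply enc_congr
        intro c hc
        have e2 : ex gg ((Equiv.swap (⟨i, hi14⟩ : Fin 14) ⟨j, hj⟩).trans π) i c =
            gg (π (Equiv.swap (⟨i, hi14⟩ : Fin 14) ⟨j, hj⟩ ⟨i, hi14⟩))
              (π (Equiv.swap (⟨i, hi14⟩ : Fin 14) ⟨j, hj⟩ ⟨c, hc⟩)) :=
          ex_fin gg _ ⟨i, hi14⟩ ⟨c, hc⟩
        rw [e2, Equiv.swap_apply_left]
        by_cases hci : c = i
        · subst hci
          rw [Equiv.swap_apply_left]
          have e3 := ex_fin gg π ⟨j, hj⟩ ⟨j, hj⟩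
          have e4 : ex gg π j j = gg (π ⟨j, hj⟩) (π ⟨j, hj⟩) := e3
          rw [← e4, hir j, hsy j c, hgij]
        · by_cases hcj : c = j
          · subst hcj
            rw [Equiv.swap_apply_right]
            have e4 : ex gg π c i = gg (π ⟨c, hj⟩) (π ⟨i, hi14⟩) :=
              ex_fin gg π ⟨c, hj⟩ ⟨i, hi14⟩
            rw [← e4, hir c, hsy c i, hgij]
          · rw [Equiv.swap_apply_of_ne_of_ne]
            · exact (ex_fin gg π ⟨j, hj⟩ ⟨c, hc⟩).symm
            · intro h; exact hci (congrArg Fin.val h)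
            · intro h; exact hcj (congrArg Fin.val h)
      show enc (ex gg π i) 14 < enc (ex gg _ i) 14
      rw [h1]
      exact not_le.1 hcon

end Pool.Agent.H175R3.Pat
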