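import Mathlib
import Pool.Agent.H175R3.PatSearch
import Pool.Agent.H175R3.PatCanon

set_option autoImplicit false

namespace Pool.Agent.H175R3.Pat

/-- the number made of the rows -/
noncomputable def pack (l : List ℕ) : ℕ :=
  List.rec (motive := fun _ => ℕ) 0 (fun r _ ih => r + 16384 * ih) l

theorem pack_cons (r : ℕ) (l : List ℕ) : pack (r :: l) = r + 16384 * pack l := rfl

/-- the entry `(i, c)` of the `14 × 14` matrix coded by `D` -/
noncomputable def bt (D i c : ℕ) : ℕ := Nat.mod (Nat.shiftRight D (195 - (14 * i + c))) 2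

/-- the number of common neighbours -/
noncomputable def cod (D i j : ℕ) : ℕ := sm 14 (fun k => bt D i k * bt D j k)

/-- the number of closed walks of length four -/
noncomputable def g4 (D : ℕ) : ℕ := sm 14 (fun i => sm 14 (fun j => cod D i j * cod D i j))

/-- the number of closed walks of length five -/
noncomputable def g5 (D : ℕ) : ℕ :=
  sm 14 (fun i => sm 14 (fun j => cod D i j * sm 14 (fun k => cod D i k * bt D k j)))

/-- all numbers below `n` satisfy `f` -/
noncomputable def allb (n : ℕ) (f : ℕ → Bool) : Bool :=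
  Nat.rec (motive := fun _ => Bool) true (fun k ih => Bool.rec false ih (f k)) n

theorem allb_iff (n : ℕ) (f : ℕ → Bool) : allb n f = true ↔ ∀ k, k < n → f k = true := by
  induction n with
  | zero => exact ⟨fun _ k hk => by omega, fun _ => rfl⟩
  | succ n ih =>
    have h : allb (n + 1) f = (f n && allb n f) := by
      show (Bool.rec false (allb n f) (f n) : Bool) = _
      cases f n <;> rfl
    rw [h, Bool.and_eq_true, ih]
    constructor
    · rintro ⟨h1, h2⟩ k hk
      rcases Nat.lt_or_ge k n with h3 | h3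
      · exact h2 k h3
      · have : k = n := by omega
        subst this; exact h1
    · intro h1
      exact ⟨h1 n (by omega), fun k hk => h1 k (by omega)⟩

/-- some element of the list satisfies `f` -/
noncomputable def anyb (l : List ℕ) (f : ℕ → Bool) : Bool :=
  List.rec (motive := fun _ => Bool) false (fun a _ ih => Bool.rec ih true (f a)) l

theorem anyb_imp (l : List ℕ) (f : ℕ → Bool) (h : anyb l f = true) : ∃ a, f a = true := by
  induction l with
  | nil => exact absurd h Bool.false_ne_true
  | cons a l ih =>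
    have h1 : anyb (a :: l) f = (f a || anyb l f) := by
      show (Bool.rec (anyb l f) true (f a) : Bool) = _
      cases f a <;> rfl
    rw [h1, Bool.or_eq_true] at h
    rcases h with h | h
    · exact ⟨a, h⟩
    · exact ih h

/-- the image of `i` under the map coded by `P` -/
noncomputable def pp (P i : ℕ) : ℕ := Nat.mod (Nat.shiftRight P (4 * i)) 16

/-- `P` codes an isomorphism -/
noncomputable def isoc (G D P : ℕ) : Bool :=
  Bool.rec false
    (allb 14 (fun i => Bool.rec false
      (allb i (fun j => Bool.rec true false (Nat.beq (pp P i) (pp P j)))) (Nat.ble (pp P i) 13)))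
    (allb 14 (fun i => allb 14 (fun j => Nat.beq (bt D i j) (bt G (pp P i) (pp P j)))))

/-- the first graph -/
def G1 : ℕ := 48650693427553649054082497886481990067301779001463205986668

/-- the second graph -/
def G2 : ℕ := 48650693427370972499618271100344608495108383757601730806186

def perms1 : List ℕ := [48357978483951106, 1708955617557181, 1709157979037131, 32969490958813876, 14673501195640021, 38787824224019971, 57870026963756086, 27184403806993021, 1820934502927771, 20644459214724151, 33834201271937881]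

def perms2 : List ℕ := [25835944138719526, 53379925130252401, 9114416040958396, 39069308012819971, 19740125966465461, 10281374446261081, 24658958485334116, 61809915992412736]

/-- the test made for each graph which is found -/
noncomputable def leafOK (l : List ℕ) : Bool :=
  Bool.rec (Bool.rec (Nat.ble 1191 (g4 (pack l))) true (anyb perms2 (isoc G2 (pack l)))) true
    (anyb perms1 (isoc G1 (pack l)))

theorem shift_pack (g : ℕ → ℕ → Bool) (m k : ℕ) :
    (pack (dn g (m + k))) >>> (14 * k) = pack (dn g m) := by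
  induction k with
  | zero => rfl
  | succ k ih =>
    have h1 : pack (dn g (m + (k + 1))) = enc (g (m + k)) 14 + 16384 * pack (dn g (m + k)) := rfl
    have h2 := enc_lt_pow (g (m + k)) 14
    have h3 : 14 * (k + 1) = 14 + 14 * k := by ring
    rw [h3, Nat.shiftRight_add, h1]
    have h4 : (enc (g (m + k)) 14 + 16384 * pack (dn g (m + k))) >>> 14
        = pack (dn g (m + k)) := by
      rw [Nat.shiftRight_eq_div_pow]
      norm_num at h2 ⊢
      omega
    rw [h4]
    exact ih

theorem bt_pack (g : ℕ → ℕ → Bool) (i c : ℕ) (hi : i < 14) (hc : c < 14) :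
    bt (pack (dn g 14)) i c = (g i c).toNat := by
  have h1 : 195 - (14 * i + c) = 14 * (13 - i) + (13 - c) := by omega
  show ((pack (dn g 14)) >>> (195 - (14 * i + c))) % 2 = _
  rw [h1, Nat.shiftRight_add]
  have h2 : (pack (dn g 14)) >>> (14 * (13 - i)) = pack (dn g (i + 1)) := by
    have := shift_pack g (i + 1) (13 - i)
    have e : i + 1 + (13 - i) = 14 := by omega
    rwa [e] at this
  rw [h2]
  have h3 : pack (dn g (i + 1)) = enc (g i) 14 + 16384 * pack (dn g i) := rfl
  rw [h3]
  obtain ⟨d, hd⟩ : ∃ d, d = 13 - c := ⟨_, rfl⟩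
  have hcd : 14 = (c + 1) + d := by omega
  have h4 : (enc (g i) 14) >>> d = enc (g i) (c + 1) := by
    have := enc_shift (g i) (c + 1) d
    rw [← hcd] at this
    exact this
  rw [← hd]
  rw [Nat.shiftRight_eq_div_pow] at h4 ⊢
  have h5 : (16384 : ℕ) = 2 ^ d * 2 ^ (c + 1) := by
    rw [← pow_add]
    have : d + (c + 1) = 14 := by omega
    rw [this]; norm_num
  have h6 : enc (g i) 14 + 16384 * pack (dn g i) =
      enc (g i) 14 + 2 ^ d * (2 ^ (c + 1) * pack (dn g i)) := by
    rw [h5]; ring
  rw [h6, Nat.add_mul_div_left _ _ (by positivity), h4, enc_succ]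
  have h7 := toNat_le (g i c)
  have h8 : 2 ^ (c + 1) * pack (dn g i) = 2 * (2 ^ c * pack (dn g i)) := by ring
  rw [h8]
  omega

/-- the integer matrix coded by `D` -/
noncomputable def AG (D : ℕ) : Matrix (Fin 14) (Fin 14) ℤ := fun i j => (bt D i j : ℤ)

theorem sm_fin (f : ℕ → ℕ) : sm 14 f = ∑ i : Fin 14, f i := by
  rw [sm_eq, Finset.sum_range]

theorem cod_comm (D i j : ℕ) : cod D i j = cod D j i := by
  unfold cod
  exact sm_congr (fun a _ => Nat.mul_comm _ _)

theorem AG_sq (D : ℕ) (hs : ∀ i j, i < 14 → j < 14 → bt D i j = bt D j i) (i j : Fin 14) :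
    (AG D * AG D) i j = (cod D i j : ℤ) := by
  rw [Matrix.mul_apply]
  unfold cod
  rw [sm_fin]
  push_cast
  apply Finset.sum_congr rfl
  intro k _
  unfold AG
  rw [hs k j k.2 j.2]

theorem tr4 (D : ℕ) (hs : ∀ i j, i < 14 → j < 14 → bt D i j = bt D j i) :
    (AG D ^ 4).trace = (g4 D : ℤ) := by
  have h : AG D ^ 4 = (AG D * AG D) * (AG D * AG D) := by
    rw [show (4 : ℕ) = 2 + 2 from rfl, pow_add, pow_two]
  rw [h]
  unfold g4
  rw [sm_fin, Matrix.trace]
  push_cast
  apply Finset.sum_congr rfl
  intro i _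
  rw [Matrix.diag_apply, Matrix.mul_apply, sm_fin]
  push_cast
  apply Finset.sum_congr rfl
  intro j _
  rw [AG_sq D hs, AG_sq D hs, cod_comm D j i]

theorem tr5 (D : ℕ) (hs : ∀ i j, i < 14 → j < 14 → bt D i j = bt D j i) :
    (AG D ^ 5).trace = (g5 D : ℤ) := by
  have h : AG D ^ 5 = ((AG D * AG D) * AG D) * (AG D * AG D) := by
    rw [show (5 : ℕ) = 2 + 1 + 2 from rfl, pow_add, pow_succ, pow_two]
  rw [h]
  unfold g5
  rw [sm_fin, Matrix.trace]
  push_cast
  apply Finset.sum_congr rfl
  intro i _
  rw [Matrix.diag_apply, Matrix.mul_apply, sm_fin]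
  push_cast
  apply Finset.sum_congr rfl
  intro j _
  have h2 : ((AG D * AG D) * AG D) i j = ((sm 14 (fun k => cod D i k * bt D k j) : ℕ) : ℤ) := by
    rw [Matrix.mul_apply, sm_fin]
    push_cast
    apply Finset.sum_congr rfl
    intro k _
    rw [AG_sq D hs]
    rfl
  rw [AG_sq D hs, cod_comm D j i, mul_comm, h2]

theorem of_isoc (G D P : ℕ) (h : isoc G D P = true) :
    ∃ e : Equiv.Perm (Fin 14), AG D = (AG G).submatrix e e := by
  have h0 : isoc G D P = ((allb 14 (fun i => allb 14 (fun j => Nat.beq (bt D i j)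
      (bt G (pp P i) (pp P j))))) && (allb 14 (fun i => Bool.rec false
      (allb i (fun j => Bool.rec true false (Nat.beq (pp P i) (pp P j)))) (Nat.ble (pp P i) 13)))) := by
    show (Bool.rec false _ (allb 14 (fun i => allb 14 (fun j => Nat.beq (bt D i j)
      (bt G (pp P i) (pp P j))))) : Bool) = _
    cases (allb 14 (fun i => allb 14 (fun j => Nat.beq (bt D i j)
      (bt G (pp P i) (pp P j))))) <;> rfl
  rw [h0, Bool.and_eq_true, allb_iff, allb_iff] at h
  obtain ⟨h1, h2⟩ := h
  have h3 : ∀ i, i < 14 → pp P i < 14 ∧ ∀ j, j < i → pp P i ≠ pp P j := by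
    intro i hi
    have h4 := h2 i hi
    have h5' : ∀ x y : Bool, (x && y) = (Bool.rec false y x : Bool) := by
      intro x y
      cases x <;> rfl
    have h5 : (Nat.ble (pp P i) 13 && (allb i (fun j => Bool.rec true false
        (Nat.beq (pp P i) (pp P j))))) = true := (h5' _ _).trans h4
    rw [Bool.and_eq_true, allb_iff] at h5
    refine ⟨by have := Nat.le_of_ble_eq_true h5.1; omega, ?_⟩
    intro j hj hcon
    have h6 := h5.2 j hj
    rw [hcon] at h6
    have h7 : Nat.beq (pp P j) (pp P j) = true := Nat.beq_refl _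
    rw [h7] at h6
    exact absurd h6 Bool.false_ne_true
  have hinj : Function.Injective (fun i : Fin 14 => (⟨pp P i, (h3 i i.2).1⟩ : Fin 14)) := by
    intro a b hab
    have hab' : pp P a = pp P b := congrArg Fin.val hab
    rcases lt_trichotomy (a : ℕ) (b : ℕ) with hlt | heq | hgt
    · exact absurd hab'.symm ((h3 b b.2).2 a hlt)
    · exact Fin.ext heq
    · exact absurd hab' ((h3 a a.2).2 b hgt)
  have hbij := (Finite.injective_iff_bijective).1 hinj
  refine ⟨Equiv.ofBijective _ hbij, ?_⟩
  ext i j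
  have h8 := (allb_iff _ _).1 (h1 i i.2) j j.2
  have h9 := Nat.eq_of_beq_eq_true h8
  show ((bt D i j : ℕ) : ℤ) = ((bt G (pp P i) (pp P j) : ℕ) : ℤ)
  rw [h9]

theorem of_leafOK (l : List ℕ) (h : leafOK l = true) :
    (∃ e : Equiv.Perm (Fin 14), AG (pack l) = (AG G1).submatrix e e) ∨
    (∃ e : Equiv.Perm (Fin 14), AG (pack l) = (AG G2).submatrix e e) ∨
    1191 ≤ g4 (pack l) := by
  have h0 : leafOK l = (anyb perms1 (isoc G1 (pack l)) || (anyb perms2 (isoc G2 (pack l)) ||
      Nat.ble 1191 (g4 (pack l)))) := by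
    show (Bool.rec (Bool.rec (Nat.ble 1191 (g4 (pack l))) true
      (anyb perms2 (isoc G2 (pack l)))) true (anyb perms1 (isoc G1 (pack l))) : Bool) = _
    cases anyb perms1 (isoc G1 (pack l)) <;> cases anyb perms2 (isoc G2 (pack l)) <;> rfl
  rw [h0, Bool.or_eq_true, Bool.or_eq_true] at h
  rcases h with h | h | h
  · obtain ⟨P, hP⟩ := anyb_imp _ _ h
    exact Or.inl (of_isoc _ _ _ hP)
  · obtain ⟨P, hP⟩ := anyb_imp _ _ h
    exact Or.inr (Or.inl (of_isoc _ _ _ hP))
  · exact Or.inr (Or.inr (Nat.le_of_ble_eq_true h))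

theorem trace_submatrix_pow (M : Matrix (Fin 14) (Fin 14) ℤ) (e : Equiv.Perm (Fin 14)) (h : ℕ) :
    ((M.submatrix e e) ^ h).trace = (M ^ h).trace := by
  have h1 : (M.submatrix e e) ^ h = (M ^ h).submatrix e e := by
    induction h with
    | zero => rw [pow_zero, pow_zero, Matrix.submatrix_one_equiv]
    | succ h ih => rw [pow_succ, pow_succ, ih, Matrix.submatrix_mul_equiv]
  rw [h1]
  unfold Matrix.trace
  exact Equiv.sum_comp e (fun i => (M ^ h) i i)

theorem classify_of (hsearch : search leafOK 14 (List.replicate 14 (0, 5)) [] = true)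
    (B : Matrix (Fin 14) (Fin 14) ℤ) (h01 : ∀ i j, B i j = 0 ∨ B i j = 1)
    (hs : ∀ i j, B i j = B j i) (h0 : ∀ i, B i i = 0) (hd : ∀ i, ∑ j, B i j = 5)
    (ht : ∀ i j k, B i j = 1 → B j k = 1 → B i k = 1 → False) :
    (∃ e : Equiv.Perm (Fin 14), B = (AG G1).submatrix e e) ∨
    (∃ e : Equiv.Perm (Fin 14), B = (AG G2).submatrix e e) ∨
    1191 ≤ (B ^ 4).trace := by
  have hgg : ∀ i j, (((decide (B i j = 1)).toNat : ℕ) : ℤ) = B i j := by
    intro i j
    rcases h01 i j with h | h
    · rw [h]; decide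
    · rw [h]; decide
  obtain ⟨π, hπ⟩ := exists_canon (fun i j => decide (B i j = 1))
    (fun a b => by rw [hs a b]) (fun a => by rw [h0 a]; decide)
    (fun a => by
      have h1 := hd a
      have h2 : ∑ j, (((decide (B a j = 1)).toNat : ℕ) : ℤ) = 5 := by
        rw [← h1]; exact Finset.sum_congr rfl (fun j _ => hgg a j)
      exact_mod_cast h2)
    (fun a b c h1 h2 h3 => ht a b c (of_decide_eq_true h1) (of_decide_eq_true h2)
      (of_decide_eq_true h3))
  have hbt : ∀ i j : Fin 14, bt (pack (dn (ex (fun i j => decide (B i j = 1)) π) 14)) i j =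
      (decide (B (π i) (π j) = 1)).toNat := by
    intro i j
    rw [bt_pack _ _ _ i.2 j.2, ex_fin]
  have hA : AG (pack (dn (ex (fun i j => decide (B i j = 1)) π) 14)) = B.submatrix π π := by
    ext i j
    show ((bt _ i j : ℕ) : ℤ) = B (π i) (π j)
    rw [hbt i j]
    exact hgg _ _
  have hB : B = (B.submatrix π π).submatrix π.symm π.symm := by
    ext i j
    simp
  rcases of_leafOK _ (search_main hπ leafOK hsearch) with ⟨e, he⟩ | ⟨e, he⟩ | h
  · left
    refine ⟨π.symm.trans e, ?_⟩
    rw [hB, ← hA, he]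
    ext i j
    rfl
  · right; left
    refine ⟨π.symm.trans e, ?_⟩
    rw [hB, ← hA, he]
    ext i j
    rfl
  · right; right
    have h1 := tr4 (pack (dn (ex (fun i j => decide (B i j = 1)) π) 14)) (by
      intro i j hi hj
      rw [bt_pack _ _ _ hi hj, bt_pack _ _ _ hj hi, hπ.symm i j])
    rw [hA, trace_submatrix_pow] at h1
    rw [h1]
    exact_mod_cast h

end Pool.Agent.H175R3.Pat
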