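import Mathlib

set_option autoImplicit false

namespace Pool.Agent.H175R3.PatSpec

open Matrix

variable {n : ℕ}

theorem sum_erase (s : Multiset ℝ) :
    ((s.erase 0).map (fun x => x⁻¹)).sum = (s.map (fun x => x⁻¹)).sum := by
  by_cases h : (0 : ℝ) ∈ s
  · conv_rhs => rw [← Multiset.cons_erase h]
    rw [Multiset.map_cons, Multiset.sum_cons, _root_.inv_zero, zero_add]
  · rw [Multiset.erase_of_notMem h]

theorem spec (C E X : Matrix (Fin n) (Fin n) ℝ) (hC : C.IsHermitian) (h1 : C * X = E)
    (h2 : C * E = C) (h3 : E * X = X) :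
    ((C.charpoly.roots.erase 0).map (fun x => x⁻¹)).sum = X.trace ∧
    (Multiset.count 0 C.charpoly.roots : ℝ) = n - E.trace := by
  obtain ⟨U, hU⟩ : ∃ U : Matrix (Fin n) (Fin n) ℝ, U = (hC.eigenvectorUnitary : Matrix _ _ ℝ) :=
    ⟨_, rfl⟩
  have u1 : star U * U = 1 := by rw [hU]; exact Unitary.coe_star_mul_self _
  have u2 : U * star U = 1 := by rw [hU]; exact Unitary.coe_mul_star_self _
  obtain ⟨D, hD⟩ : ∃ D : Matrix (Fin n) (Fin n) ℝ, D = diagonal hC.eigenvalues := ⟨_, rfl⟩
  have hspec : C = U * D * star U := by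
    have := hC.spectral_theorem
    rw [Unitary.conjStarAlgAut_apply] at this
    rw [hU, hD]
    exact this
  have hDe : star U * C * U = D := by
    rw [hspec]
    calc star U * (U * D * star U) * U = (star U * U) * D * (star U * U) := by
          simp only [Matrix.mul_assoc]
      _ = D := by rw [u1, Matrix.one_mul, Matrix.mul_one]
  obtain ⟨X', hX'⟩ : ∃ X' : Matrix (Fin n) (Fin n) ℝ, X' = star U * X * U := ⟨_, rfl⟩
  obtain ⟨E', hE'⟩ : ∃ E' : Matrix (Fin n) (Fin n) ℝ, E' = star U * E * U := ⟨_, rfl⟩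
  have conj : ∀ P Q : Matrix (Fin n) (Fin n) ℝ,
      (star U * P * U) * (star U * Q * U) = star U * (P * Q) * U := by
    intro P Q
    calc (star U * P * U) * (star U * Q * U) = star U * P * (U * star U) * Q * U := by
          simp only [Matrix.mul_assoc]
      _ = star U * (P * Q) * U := by rw [u2, Matrix.mul_one]; simp only [Matrix.mul_assoc]
  have e1 : D * X' = E' := by rw [← hDe, hX', hE', conj, h1]
  have e2 : D * E' = D := by rw [← hDe, hE', conj, h2]
  have e3 : E' * X' = X' := by rw [hE', hX', conj, h3]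
  have tr : ∀ P : Matrix (Fin n) (Fin n) ℝ, (star U * P * U).trace = P.trace := by
    intro P
    rw [Matrix.trace_mul_comm, ← Matrix.mul_assoc, u2, Matrix.one_mul]
  have f1 : ∀ i j, hC.eigenvalues i * X' i j = E' i j := by
    intro i j
    have := congrFun (congrFun e1 i) j
    rw [hD, Matrix.diagonal_mul] at this
    exact this
  have f2 : ∀ i, hC.eigenvalues i * E' i i = hC.eigenvalues i := by
    intro i
    have := congrFun (congrFun e2 i) i
    rw [hD, Matrix.diagonal_mul, Matrix.diagonal_apply_eq] at this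
    exact this
  have f3 : ∀ i, X' i i = hC.eigenvalues i * ∑ j, X' i j * X' j i := by
    intro i
    have := congrFun (congrFun e3 i) i
    rw [Matrix.mul_apply] at this
    rw [← this, Finset.mul_sum]
    apply Finset.sum_congr rfl
    intro j _
    rw [← f1 i j]
    ring
  have g1 : ∀ i, X' i i = (hC.eigenvalues i)⁻¹ := by
    intro i
    by_cases h : hC.eigenvalues i = 0
    · rw [f3 i, h, zero_mul, _root_.inv_zero]
    · have h4 := f2 i
      have h5 : E' i i = 1 := by
        have : hC.eigenvalues i * (E' i i - 1) = 0 := by rw [mul_sub, h4]; ring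
        rcases mul_eq_zero.1 this with h6 | h6
        · exact absurd h6 h
        · linarith
      have h6 := f1 i i
      rw [h5] at h6
      field_simp
      linarith
  have g2 : ∀ i, E' i i = if hC.eigenvalues i = 0 then 0 else 1 := by
    intro i
    by_cases h : hC.eigenvalues i = 0
    · rw [if_pos h, ← f1 i i, h, zero_mul]
    · rw [if_neg h]
      have h4 := f2 i
      have : hC.eigenvalues i * (E' i i - 1) = 0 := by rw [mul_sub, h4]; ring
      rcases mul_eq_zero.1 this with h6 | h6
      · exact absurd h6 h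
      · linarith
  have hroots : C.charpoly.roots = Multiset.map hC.eigenvalues Finset.univ.val := by
    have := hC.roots_charpoly_eq_eigenvalues
    exact this
  constructor
  · rw [sum_erase, hroots, Multiset.map_map]
    have h7 : X.trace = ∑ i, (hC.eigenvalues i)⁻¹ := by
      rw [← tr X, ← hX', Matrix.trace]
      exact Finset.sum_congr rfl (fun i _ => g1 i)
    rw [h7]
    rfl
  · have h7 : E.trace = ∑ i, (if hC.eigenvalues i = 0 then (0 : ℝ) else 1) := by
      rw [← tr E, ← hE', Matrix.trace]
      exact Finset.sum_congr rfl (fun i _ => g2 i)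
    have h8 : (Multiset.count 0 C.charpoly.roots : ℝ) =
        ∑ i, (if hC.eigenvalues i = 0 then (1 : ℝ) else 0) := by
      rw [hroots, Multiset.count_map, Finset.sum_boole]
      have h10 : Multiset.filter (fun a => 0 = hC.eigenvalues a) Finset.univ.val =
          (Finset.univ.filter (fun x => hC.eigenvalues x = 0)).val := by
        rw [Finset.filter_val]
        exact Multiset.filter_congr (fun i _ => eq_comm)
      rw [h10]
      rfl
    rw [h7, h8]
    have h9 : (n : ℝ) = ∑ i : Fin n, (1 : ℝ) := by simp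
    rw [h9, ← Finset.sum_sub_distrib]
    apply Finset.sum_congr rfl
    intro i _
    by_cases h : hC.eigenvalues i = 0
    · rw [if_pos h, if_pos h]; ring
    · rw [if_neg h, if_neg h]; ring

/-- the value of a regular graph of degree five on fourteen vertices -/
theorem value (a z : Fin 14 → Fin 14 → ℤ) (d : ℤ) (hd : d ≠ 0) (hs : ∀ i j, a i j = a j i)
    (h1 : ∀ i j, 7 * ∑ k, ((if i = k then 5 else 0) - a i k) * z k j =
      d * ((if i = j then 14 else 0) - 1))
    (h2 : ∀ j, ∑ k, z k j = 0) (h3 : ∀ i, ∑ j, a i j = 5)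
    (C : Matrix (Fin 14) (Fin 14) ℝ)
    (hC : ∀ i j, C i j = ((if i = j then 5 else 0) - (a i j : ℝ)) / 2) :
    ((C.charpoly.roots.erase 0).map (fun x => x⁻¹)).sum = (∑ i, (z i i : ℝ)) / d ∧
    (0 : ℝ) ∉ C.charpoly.roots.erase 0 := by
  have hd' : (d : ℝ) ≠ 0 := by exact_mod_cast hd
  have h1' : ∀ i j, 7 * ∑ k, (((if i = k then (5 : ℝ) else 0) - (a i k : ℝ)) * (z k j : ℝ)) =
      (d : ℝ) * ((if i = j then (14 : ℝ) else 0) - 1) := by
    intro i j
    have := h1 i j
    have h4 : ((7 * ∑ k, ((if i = k then 5 else 0) - a i k) * z k j : ℤ) : ℝ) =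
      ((d * ((if i = j then 14 else 0) - 1) : ℤ) : ℝ) := by rw [this]
    push_cast at h4
    exact h4
  have h2' : ∀ j, ∑ k, (z k j : ℝ) = 0 := by
    intro j
    exact_mod_cast h2 j
  have h3' : ∀ i, ∑ j, (a i j : ℝ) = 5 := by
    intro i
    exact_mod_cast h3 i
  have hrow : ∀ i, ∑ k, C i k = 0 := by
    intro i
    have : ∑ k, C i k = (∑ k, ((if i = k then (5 : ℝ) else 0) - (a i k : ℝ))) / 2 := by
      rw [Finset.sum_div]
      exact Finset.sum_congr rfl (fun k _ => hC i k)
    rw [this, Finset.sum_sub_distrib, h3' i, Finset.sum_ite_eq, if_pos (Finset.mem_univ _)]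
    ring
  have hher : C.IsHermitian := by
    ext i j
    rw [Matrix.conjTranspose_apply, hC j i, hC i j, hs i j]
    by_cases h : i = j
    · rw [if_pos h, if_pos h.symm]; simp
    · rw [if_neg h, if_neg (fun hh => h hh.symm)]; simp
  obtain ⟨E, hE⟩ : ∃ E : Matrix (Fin 14) (Fin 14) ℝ,
      E = fun i j => (if i = j then (1 : ℝ) else 0) - 1 / 14 := ⟨_, rfl⟩
  obtain ⟨X, hX⟩ : ∃ X : Matrix (Fin 14) (Fin 14) ℝ, X = fun i j => (z i j : ℝ) / d := ⟨_, rfl⟩
  have a1 : C * X = E := by
    ext i j
    rw [Matrix.mul_apply, hE, hX]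
    show ∑ k, C i k * ((z k j : ℝ) / d) = (if i = j then (1 : ℝ) else 0) - 1 / 14
    have h4 := h1' i j
    have h5 : ∑ k, C i k * ((z k j : ℝ) / d) =
        (∑ k, (((if i = k then (5 : ℝ) else 0) - (a i k : ℝ)) * (z k j : ℝ))) / (2 * d) := by
      rw [Finset.sum_div]
      apply Finset.sum_congr rfl
      intro k _
      rw [hC i k]
      field_simp
    have h6 : ∑ k, (((if i = k then (5 : ℝ) else 0) - (a i k : ℝ)) * (z k j : ℝ)) =
        (d : ℝ) * ((if i = j then (14 : ℝ) else 0) - 1) / 7 := by
      rw [← h4]; ring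
    rw [h5, h6]
    by_cases h : i = j
    · rw [if_pos h, if_pos h]; field_simp; norm_num
    · rw [if_neg h, if_neg h]; field_simp; norm_num
  have a2 : C * E = C := by
    ext i j
    rw [Matrix.mul_apply, hE]
    show ∑ k, C i k * ((if k = j then (1 : ℝ) else 0) - 1 / 14) = C i j
    have h5 : ∑ k, C i k * ((if k = j then (1 : ℝ) else 0) - 1 / 14) =
        (∑ k, (if k = j then C i k else 0)) - (∑ k, C i k) / 14 := by
      rw [Finset.sum_div, ← Finset.sum_sub_distrib]
      apply Finset.sum_congr rfl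
      intro k _
      by_cases h : k = j
      · rw [if_pos h, if_pos h]; ring
      · rw [if_neg h, if_neg h]; ring
    rw [h5, hrow i, Finset.sum_ite_eq', if_pos (Finset.mem_univ _)]
    ring
  have a3 : E * X = X := by
    ext i j
    rw [Matrix.mul_apply, hE, hX]
    show ∑ k, ((if i = k then (1 : ℝ) else 0) - 1 / 14) * ((z k j : ℝ) / d) = (z i j : ℝ) / d
    have h5 : ∑ k, ((if i = k then (1 : ℝ) else 0) - 1 / 14) * ((z k j : ℝ) / d) =
        (∑ k, (if i = k then (z k j : ℝ) / d else 0)) - (∑ k, (z k j : ℝ)) / (14 * d) := by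
      rw [Finset.sum_div, ← Finset.sum_sub_distrib]
      apply Finset.sum_congr rfl
      intro k _
      by_cases h : i = k
      · rw [if_pos h, if_pos h]; field_simp
      · rw [if_neg h, if_neg h]; field_simp; ring
    rw [h5, h2' j, Finset.sum_ite_eq, if_pos (Finset.mem_univ _)]
    simp
  obtain ⟨b1, b2⟩ := spec C E X hher a1 a2 a3
  constructor
  · rw [b1, hX, Finset.sum_div]
    rfl
  · have h7 : E.trace = 13 := by
      rw [hE]
      show ∑ i : Fin 14, ((if i = i then (1 : ℝ) else 0) - 1 / 14) = 13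
      simp
      norm_num
    rw [h7] at b2
    have h8 : Multiset.count 0 C.charpoly.roots = 1 := by
      have : (Multiset.count 0 C.charpoly.roots : ℝ) = 1 := by rw [b2]; norm_num
      exact_mod_cast this
    intro hmem
    have h9 := Multiset.count_pos.2 hmem
    rw [Multiset.count_erase_self, h8] at h9
    omega

end Pool.Agent.H175R3.PatSpec
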