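import Mathlib
import Pool.Agent.H175R3.PatLeaf
import Pool.Agent.H175R3.PatSpec

set_option autoImplicit false

namespace Pool.Agent.H175R3.Pat

open Pool.Agent.H175R3

/-- the blocks of design 1, coded by a number -/
def N1 : ℕ := 2030697432010103483400487732520991286768072511514487157292546305324457602409441720158066487675049732053910933624290191695862350038135384786887245855

/-- the pseudo-inverse of the information matrix of design 1, times 949620 -/
def z1 : Fin 14 → Fin 14 → ℤ :=
  ![![362974, 14290, 14290, 8550, 8550, 5610, -16874, -47310, -47310, -44370, -60190, -60190, -69010, -69010],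
    ![14290, 362974, -16874, -47310, -47310, -44370, 14290, 8550, 8550, 5610, -69010, -69010, -60190, -60190],
    ![14290, -16874, 362974, -47310, -47310, -44370, 14290, 8550, 8550, 5610, -69010, -69010, -60190, -60190],
    ![8550, -47310, -47310, 361000, -34675, -53295, 8550, 7220, -71915, -53295, 8550, 8550, -47310, -47310],
    ![8550, -47310, -47310, -34675, 361000, -53295, 8550, -71915, 7220, -53295, 8550, 8550, -47310, -47310],
    ![5610, -44370, -44370, -53295, -53295, 359040, 5610, -53295, -53295, 9180, -44370, -44370, 5610, 5610],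
    ![-16874, 14290, 14290, 8550, 8550, 5610, 362974, -47310, -47310, -44370, -60190, -60190, -69010, -69010],
    ![-47310, 8550, 8550, 7220, -71915, -53295, -47310, 361000, -34675, -53295, -47310, -47310, 8550, 8550],
    ![-47310, 8550, 8550, -71915, 7220, -53295, -47310, -34675, 361000, -53295, -47310, -47310, 8550, 8550],
    ![-44370, 5610, 5610, -53295, -53295, 9180, -44370, -53295, -53295, 359040, 5610, 5610, -44370, -44370],
    ![-60190, -69010, -69010, 8550, 8550, -44370, -60190, -47310, -47310, 5610, 362974, -16874, 14290, 14290],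
    ![-60190, -69010, -69010, 8550, 8550, -44370, -60190, -47310, -47310, 5610, -16874, 362974, 14290, 14290],
    ![-69010, -60190, -60190, -47310, -47310, 5610, -69010, 8550, 8550, -44370, 14290, 14290, 362974, -16874],
    ![-69010, -60190, -60190, -47310, -47310, 5610, -69010, 8550, 8550, -44370, 14290, 14290, -16874, 362974]]

/-- the blocks of design 2, coded by a number -/
def N2 : ℕ := 2027575683503105375607606165998684152504134689972318466509818439915584800295258022908812524275297553998304288904944181883025870942404328063561105439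

/-- the pseudo-inverse of the information matrix of design 2, times 98826 -/
def z2 : Fin 14 → Fin 14 → ℤ :=
  ![![37657, 1439, 1189, 1189, 467, 467, -3361, -3361, -4811, -4811, -6061, -6061, -6971, -6971],
    ![1439, 37657, -3361, -3361, -4811, -4811, 1189, 1189, 467, 467, -6971, -6971, -6061, -6061],
    ![1189, -3361, 37657, -4811, -3361, -6061, 1439, 467, 1189, -6971, 467, -6061, -6971, -4811],
    ![1189, -3361, -4811, 37657, -6061, -3361, 467, 1439, -6971, 1189, -6061, 467, -4811, -6971],
    ![467, -4811, -3361, -6061, 37657, -6971, 1189, -6971, 1439, -6061, 1189, -4811, 467, -3361],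
    ![467, -4811, -6061, -3361, -6971, 37657, -6971, 1189, -6061, 1439, -4811, 1189, -3361, 467],
    ![-3361, 1189, 1439, 467, 1189, -6971, 37657, -4811, -3361, -6061, -4811, -6971, -6061, 467],
    ![-3361, 1189, 467, 1439, -6971, 1189, -4811, 37657, -6061, -3361, -6971, -4811, 467, -6061],
    ![-4811, 467, 1189, -6971, 1439, -6061, -3361, -6061, 37657, -6971, -3361, 467, -4811, 1189],
    ![-4811, 467, -6971, 1189, -6061, 1439, -6061, -3361, -6971, 37657, 467, -3361, 1189, -4811],
    ![-6061, -6971, 467, -6061, 1189, -4811, -4811, -6971, -3361, 467, 37657, 1189, -3361, 1439],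
    ![-6061, -6971, -6061, 467, -4811, 1189, -6971, -4811, 467, -3361, 1189, 37657, 1439, -3361],
    ![-6971, -6061, -6971, -4811, 467, -3361, -6061, 467, -4811, 1189, -3361, 1439, 37657, 1189],
    ![-6971, -6061, -4811, -6971, -3361, 467, 467, -6061, 1189, -4811, 1439, -3361, 1189, 37657]]

/-- the incidence matrix coded by a number -/
def Dm (N : ℕ) : Matrix (Fin 14) (Fin 35) ℕ :=
  fun i b => Nat.mod (Nat.shiftRight N (35 * (i : ℕ) + (b : ℕ))) 2

set_option maxRecDepth 100000

theorem le1 (N : ℕ) (i : Fin 14) (b : Fin 35) : Dm N i b ≤ 1 := by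
  have : Dm N i b < 2 := Nat.mod_lt _ (by norm_num)
  omega

theorem col1 : ∀ j : Fin 35, ∑ i : Fin 14, Dm N1 i j = 2 := by decide +kernel

theorem row1 : ∀ i : Fin 14, ∑ j : Fin 35, Dm N1 i j = 5 := by decide +kernel

theorem col2 : ∀ j : Fin 35, ∑ i : Fin 14, Dm N2 i j = 2 := by decide +kernel

theorem row2 : ∀ i : Fin 14, ∑ j : Fin 35, Dm N2 i j = 5 := by decide +kernel

theorem gram1 : ∀ i j : Fin 14, ∑ b : Fin 35, Dm N1 i b * Dm N1 j b =
    bt G1 i j + (if i = j then 5 else 0) := by decide +kernel

theorem gram2 : ∀ i j : Fin 14, ∑ b : Fin 35, Dm N2 i b * Dm N2 j b =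
    bt G2 i j + (if i = j then 5 else 0) := by decide +kernel

theorem sym1 : ∀ i j : Fin 14, bt G1 i j = bt G1 j i := by decide +kernel

theorem sym2 : ∀ i j : Fin 14, bt G2 i j = bt G2 j i := by decide +kernel

theorem deg1 : ∀ i : Fin 14, ∑ j : Fin 14, (bt G1 i j : ℤ) = 5 := by decide +kernel

theorem deg2 : ∀ i : Fin 14, ∑ j : Fin 14, (bt G2 i j : ℤ) = 5 := by decide +kernel

theorem inv1 : ∀ i j : Fin 14, 7 * ∑ k : Fin 14, ((if i = k then 5 else 0) - (bt G1 i k : ℤ)) *
    z1 k j = 949620 * ((if i = j then 14 else 0) - 1) := by decide +kernel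

theorem inv2 : ∀ i j : Fin 14, 7 * ∑ k : Fin 14, ((if i = k then 5 else 0) - (bt G2 i k : ℤ)) *
    z2 k j = 98826 * ((if i = j then 14 else 0) - 1) := by decide +kernel

theorem zcol1 : ∀ j : Fin 14, ∑ k : Fin 14, z1 k j = 0 := by decide +kernel

theorem zcol2 : ∀ j : Fin 14, ∑ k : Fin 14, z2 k j = 0 := by decide +kernel

theorem ztr1 : ∑ i : Fin 14, z1 i i = 5065872 := by decide +kernel

theorem ztr2 : ∑ i : Fin 14, z2 i i = 527198 := by decide +kernel

theorem g4G1 : g4 G1 = 1190 := by decide +kernel

theorem g4G2 : g4 G2 = 1190 := by decide +kernel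

theorem g5G1 : g5 G1 = 960 := by decide +kernel

theorem g5G2 : g5 G2 = 980 := by decide +kernel

/-- every vertex other than `0` has a smaller neighbour in the first graph -/
theorem conn1 : ∀ i : Fin 14, i = 0 ∨ ∃ j : Fin 14, j < i ∧ bt G1 i j = 1 := by decide +kernel

end Pool.Agent.H175R3.Pat
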