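import Mathlib
import Pool.Agent.H175R3.PatLeaf

set_option autoImplicit false

namespace Pool.Agent.H175R3.Pat

set_option maxRecDepth 100000 in
theorem search_true : search leafOK 14 (List.replicate 14 (0, 5)) [] = true := by
  decide +kernel

theorem classify (B : Matrix (Fin 14) (Fin 14) ℤ) (h01 : ∀ i j, B i j = 0 ∨ B i j = 1)
    (hs : ∀ i j, B i j = B j i) (h0 : ∀ i, B i i = 0) (hd : ∀ i, ∑ j, B i j = 5)
    (ht : ∀ i j k, B i j = 1 → B j k = 1 → B i k = 1 → False) :
    (∃ e : Equiv.Perm (Fin 14), B = (AG G1).submatrix e e) ∨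
    (∃ e : Equiv.Perm (Fin 14), B = (AG G2).submatrix e e) ∨
    1191 ≤ (B ^ 4).trace :=
  classify_of search_true B h01 hs h0 hd ht

end Pool.Agent.H175R3.Pat
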