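import Mathlib
import Pool.Agent.H175R3.PatRun
import Pool.Agent.H175R3.PatData

set_option autoImplicit false

namespace Pool.Agent.H175R3.Pat

open Pool.Agent.H175R3

/-- the adjacency matrix of the concurrence graph -/
def gm (M : Matrix (Fin 14) (Fin 35) ℕ) : Matrix (Fin 14) (Fin 14) ℤ :=
  M.map (fun x : ℕ => (x : ℤ)) * (M.map (fun x : ℕ => (x : ℤ))).transpose
    - ((5 : ℕ) : ℤ) • (1 : Matrix (Fin 14) (Fin 14) ℤ)

theorem gm_apply (M : Matrix (Fin 14) (Fin 35) ℕ) (i j : Fin 14) :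
    gm M i j = ∑ b, (M i b : ℤ) * (M j b : ℤ) - (if i = j then 5 else 0) := by
  unfold gm
  rw [Matrix.sub_apply, Matrix.mul_apply, Matrix.smul_apply, Matrix.one_apply]
  congr 1
  by_cases h : i = j
  · rw [if_pos h, if_pos h]; simp
  · rw [if_neg h, if_neg h]; simp

theorem gm_symm (M : Matrix (Fin 14) (Fin 35) ℕ) (i j : Fin 14) : gm M i j = gm M j i := by
  rw [gm_apply, gm_apply]
  have h1 : ∑ b, (M i b : ℤ) * (M j b : ℤ) = ∑ b, (M j b : ℤ) * (M i b : ℤ) :=
    Finset.sum_congr rfl (fun b _ => mul_comm _ _)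
  have h2 : (if i = j then (5 : ℤ) else 0) = (if j = i then (5 : ℤ) else 0) := by
    by_cases h : i = j
    · rw [if_pos h, if_pos h.symm]
    · rw [if_neg h, if_neg (fun hh => h hh.symm)]
  rw [h1, h2]

theorem gm_diag (M : Matrix (Fin 14) (Fin 35) ℕ) (hrow : ∀ i, ∑ j, M i j = 5)
    (hle : ∀ i j, M i j ≤ 1) (i : Fin 14) : gm M i i = 0 := by
  rw [gm_apply, if_pos rfl]
  have h1 : ∀ b, (M i b : ℤ) * (M i b : ℤ) = (M i b : ℤ) := by
    intro b
    have h := hle i b
    rcases Nat.le_one_iff_eq_zero_or_eq_one.1 h with h | h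
    · rw [h]; norm_num
    · rw [h]; norm_num
  rw [Finset.sum_congr rfl (fun b _ => h1 b)]
  have h2 : (∑ b, (M i b : ℤ)) = 5 := by exact_mod_cast hrow i
  rw [h2]; ring

theorem gm_nn (M : Matrix (Fin 14) (Fin 35) ℕ) (hrow : ∀ i, ∑ j, M i j = 5)
    (hle : ∀ i j, M i j ≤ 1) (i j : Fin 14) : 0 ≤ gm M i j := by
  by_cases h : i = j
  · rw [h, gm_diag M hrow hle j]
  · rw [gm_apply, if_neg h, sub_zero]
    exact Finset.sum_nonneg (fun b _ => by positivity)

theorem gm_sum (M : Matrix (Fin 14) (Fin 35) ℕ) (hcol : ∀ j, ∑ i, M i j = 2)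
    (hrow : ∀ i, ∑ j, M i j = 5) (i : Fin 14) : ∑ j, gm M i j = 5 := by
  have h1 : ∑ j, gm M i j = ∑ j, (∑ b, (M i b : ℤ) * (M j b : ℤ)) -
      ∑ j, (if i = j then (5 : ℤ) else 0) := by
    rw [← Finset.sum_sub_distrib]
    exact Finset.sum_congr rfl (fun j _ => gm_apply M i j)
  rw [h1, Finset.sum_comm, Finset.sum_ite_eq, if_pos (Finset.mem_univ _)]
  have h2 : ∀ b, ∑ j, (M i b : ℤ) * (M j b : ℤ) = (M i b : ℤ) * 2 := by
    intro b
    rw [← Finset.mul_sum]
    have : (∑ j, (M j b : ℤ)) = 2 := by exact_mod_cast hcol b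
    rw [this]
  rw [Finset.sum_congr rfl (fun b _ => h2 b), ← Finset.sum_mul]
  have h3 : (∑ b, (M i b : ℤ)) = 5 := by exact_mod_cast hrow i
  rw [h3]; ring

theorem gm_N1 : gm (Dm N1) = AG G1 := by
  ext i j
  rw [gm_apply]
  have h := gram1 i j
  have h' : (∑ b, (Dm N1 i b : ℤ) * (Dm N1 j b : ℤ)) =
      ((bt G1 i j + (if i = j then 5 else 0) : ℕ) : ℤ) := by
    rw [← h]; push_cast; rfl
  rw [h']
  show _ = ((bt G1 i j : ℕ) : ℤ)
  push_cast
  ring

theorem tr2 (B : Matrix (Fin 14) (Fin 14) ℤ) (hs : ∀ i j, B i j = B j i) :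
    (B ^ 2).trace = ∑ i, ∑ j, B i j * B i j := by
  rw [pow_two, Matrix.trace]
  apply Finset.sum_congr rfl
  intro i _
  rw [Matrix.diag_apply, Matrix.mul_apply]
  exact Finset.sum_congr rfl (fun j _ => by rw [hs j i])

theorem tr3 (B : Matrix (Fin 14) (Fin 14) ℤ) (hs : ∀ i j, B i j = B j i) :
    (B ^ 3).trace = ∑ i, ∑ j, ∑ k, B i k * B k j * B i j := by
  rw [show (3 : ℕ) = 2 + 1 from rfl, pow_succ, pow_two, Matrix.trace]
  apply Finset.sum_congr rfl
  intro i _
  rw [Matrix.diag_apply, Matrix.mul_apply]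
  apply Finset.sum_congr rfl
  intro j _
  rw [Matrix.mul_apply, Finset.sum_mul, hs j i]

set_option maxRecDepth 100000 in
theorem two1 : ∑ i : Fin 14, ∑ j : Fin 14, (bt G1 i j : ℤ) * (bt G1 i j : ℤ) = 70 := by
  decide +kernel

set_option maxRecDepth 100000 in
theorem three1 : ∑ i : Fin 14, ∑ j : Fin 14, ∑ k : Fin 14,
    (bt G1 i k : ℤ) * (bt G1 k j : ℤ) * (bt G1 i j : ℤ) = 0 := by
  decide +kernel

theorem symZ1 (i j : Fin 14) : AG G1 i j = AG G1 j i := by
  show ((bt G1 i j : ℕ) : ℤ) = ((bt G1 j i : ℕ) : ℤ)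
  rw [sym1 i j]

theorem symN1 : ∀ i j, i < 14 → j < 14 → bt G1 i j = bt G1 j i :=
  fun i j hi hj => sym1 ⟨i, hi⟩ ⟨j, hj⟩

theorem symN2 : ∀ i j, i < 14 → j < 14 → bt G2 i j = bt G2 j i :=
  fun i j hi hj => sym2 ⟨i, hi⟩ ⟨j, hj⟩

theorem main_lex (M : Matrix (Fin 14) (Fin 35) ℕ) (hcol : ∀ j, ∑ i, M i j = 2)
    (hrow : ∀ i, ∑ j, M i j = 5) (hle : ∀ i j, M i j ≤ 1) (t : ℕ) (ht : 2 ≤ t)
    (hprev : ∀ h, 2 ≤ h → h < t → (gm M ^ h).trace = (gm (Dm N1) ^ h).trace) :
    (gm (Dm N1) ^ t).trace ≤ (gm M ^ t).trace := by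
  rw [gm_N1] at hprev ⊢
  have v2 : (AG G1 ^ 2).trace = 70 := by rw [tr2 _ symZ1]; exact two1
  have v3 : (AG G1 ^ 3).trace = 0 := by rw [tr3 _ symZ1]; exact three1
  have v4 : (AG G1 ^ 4).trace = 1190 := by rw [tr4 _ symN1, g4G1]; norm_num
  have v5 : (AG G1 ^ 5).trace = 960 := by rw [tr5 _ symN1, g5G1]; norm_num
  have w4 : (AG G2 ^ 4).trace = 1190 := by rw [tr4 _ symN2, g4G2]; norm_num
  have w5 : (AG G2 ^ 5).trace = 980 := by rw [tr5 _ symN2, g5G2]; norm_num
  have hs : ∀ i j, gm M i j = gm M j i := gm_symm M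
  have hdiag : ∀ i, gm M i i = 0 := gm_diag M hrow hle
  have hnn : ∀ i j, 0 ≤ gm M i j := gm_nn M hrow hle
  have hsum : ∀ i, ∑ j, gm M i j = 5 := gm_sum M hcol hrow
  have hsum2 : ∑ i, ∑ j, gm M i j = 70 := by
    rw [Finset.sum_congr rfl (fun i _ => hsum i)]
    simp
  have hpt : ∀ i j, 0 ≤ gm M i j * gm M i j - gm M i j := by
    intro i j
    have h1 := hnn i j
    rcases h1.lt_or_eq with h2 | h2
    · nlinarith
    · rw [← h2]; norm_num
  have hdiff : (gm M ^ 2).trace - 70 = ∑ i, ∑ j, (gm M i j * gm M i j - gm M i j) := by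
    rw [tr2 _ hs, ← hsum2, ← Finset.sum_sub_distrib]
    apply Finset.sum_congr rfl
    intro i _
    rw [← Finset.sum_sub_distrib]
  have h3nn : ∀ i j k, 0 ≤ gm M i k * gm M k j * gm M i j := by
    intro i j k
    exact mul_nonneg (mul_nonneg (hnn _ _) (hnn _ _)) (hnn _ _)
  rcases Nat.lt_or_ge t 4 with ht4 | ht4
  · interval_cases t
    · rw [v2]
      have : 0 ≤ (gm M ^ 2).trace - 70 := by
        rw [hdiff]
        exact Finset.sum_nonneg (fun i _ => Finset.sum_nonneg (fun j _ => hpt i j))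
      linarith
    · rw [v3, tr3 _ hs]
      exact Finset.sum_nonneg (fun i _ => Finset.sum_nonneg (fun j _ =>
        Finset.sum_nonneg (fun k _ => h3nn i j k)))
  · have p2 := hprev 2 (by norm_num) (by omega)
    have p3 := hprev 3 (by norm_num) (by omega)
    rw [v2] at p2
    rw [v3, tr3 _ hs] at p3
    rw [p2, sub_self] at hdiff
    have hz := (Finset.sum_eq_zero_iff_of_nonneg (fun i _ =>
      Finset.sum_nonneg (fun j _ => hpt i j))).1 hdiff.symm
    have h01 : ∀ i j, gm M i j = 0 ∨ gm M i j = 1 := by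
      intro i j
      have h1 := (Finset.sum_eq_zero_iff_of_nonneg (fun j _ => hpt i j)).1
        (hz i (Finset.mem_univ _)) j (Finset.mem_univ _)
      have h2 : gm M i j * (gm M i j - 1) = 0 := by linarith
      rcases mul_eq_zero.1 h2 with h3 | h3
      · exact Or.inl h3
      · right; linarith
    have ht3 : ∀ i j k, gm M i j = 1 → gm M j k = 1 → gm M i k = 1 → False := by
      intro i j k h1 h2 h3
      have q1 := (Finset.sum_eq_zero_iff_of_nonneg (fun i _ => Finset.sum_nonneg (fun j _ =>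
        Finset.sum_nonneg (fun k _ => h3nn i j k)))).1 p3 i (Finset.mem_univ _)
      have q2 := (Finset.sum_eq_zero_iff_of_nonneg (fun j _ =>
        Finset.sum_nonneg (fun k _ => h3nn i j k))).1 q1 k (Finset.mem_univ _)
      have q3 := (Finset.sum_eq_zero_iff_of_nonneg (fun k' _ => h3nn i k k')).1 q2 j
        (Finset.mem_univ _)
      rw [h1, h2, h3] at q3
      norm_num at q3
    rcases classify (gm M) h01 hs hdiag hsum ht3 with ⟨e, he⟩ | ⟨e, he⟩ | h
    · rw [he, trace_submatrix_pow]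
    · rcases Nat.lt_or_ge t 6 with ht6 | ht6
      · interval_cases t
        · rw [he, trace_submatrix_pow, v4, w4]
        · rw [he, trace_submatrix_pow, v5, w5]; norm_num
      · have p5 := hprev 5 (by norm_num) (by omega)
        rw [he, trace_submatrix_pow, v5, w5] at p5
        norm_num at p5
    · rcases Nat.lt_or_ge t 5 with ht5 | ht5
      · have : t = 4 := by omega
        subst this
        rw [v4]; linarith
      · have p4 := hprev 4 (by norm_num) (by omega)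
        rw [v4] at p4
        rw [p4] at h
        norm_num at h

/-- the information matrix -/
noncomputable def im (M : Matrix (Fin 14) (Fin 35) ℕ) : Matrix (Fin 14) (Fin 14) ℝ :=
  ((5 : ℕ) : ℝ) • (1 : Matrix (Fin 14) (Fin 14) ℝ)
    - (1 / ((2 : ℕ) : ℝ)) • (M.map (fun x : ℕ => (x : ℝ)) * (M.map (fun x : ℕ => (x : ℝ))).transpose)

theorem im_apply (M : Matrix (Fin 14) (Fin 35) ℕ) (G : ℕ)
    (hgram : ∀ i j : Fin 14, ∑ b : Fin 35, M i b * M j b = bt G i j + (if i = j then 5 else 0))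
    (i j : Fin 14) :
    im M i j = ((if i = j then 5 else 0) - (((bt G i j : ℕ) : ℤ) : ℝ)) / 2 := by
  unfold im
  rw [Matrix.sub_apply, Matrix.smul_apply, Matrix.smul_apply, Matrix.mul_apply, Matrix.one_apply]
  have h' : (∑ b, (M.map (fun x : ℕ => (x : ℝ))) i b *
      ((M.map (fun x : ℕ => (x : ℝ))).transpose) b j) =
      ((bt G i j + (if i = j then 5 else 0) : ℕ) : ℝ) := by
    rw [← hgram i j]; push_cast; rfl
  rw [h']
  push_cast
  by_cases h : i = j
  · simp only [if_pos h, smul_eq_mul]; ring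
  · simp only [if_neg h, smul_eq_mul]; ring

theorem value1 : (((im (Dm N1)).charpoly.roots.erase 0).map (fun x => x⁻¹)).sum =
    5065872 / 949620 := by
  have h := (PatSpec.value (fun i j => (bt G1 i j : ℤ)) z1 949620 (by norm_num)
    (fun i j => by rw [sym1 i j]) inv1 zcol1 deg1 (im (Dm N1))
    (im_apply (Dm N1) G1 gram1)).1
  rw [h]
  have h2 : (∑ i : Fin 14, (z1 i i : ℝ)) = 5065872 := by exact_mod_cast ztr1
  rw [h2]
  norm_num

theorem value2 : (((im (Dm N2)).charpoly.roots.erase 0).map (fun x => x⁻¹)).sum =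
    527198 / 98826 ∧ (0 : ℝ) ∉ (im (Dm N2)).charpoly.roots.erase 0 := by
  have h := PatSpec.value (fun i j => (bt G2 i j : ℤ)) z2 98826 (by norm_num)
    (fun i j => by rw [sym2 i j]) inv2 zcol2 deg2 (im (Dm N2))
    (im_apply (Dm N2) G2 gram2)
  refine ⟨?_, h.2⟩
  rw [h.1]
  have h2 : (∑ i : Fin 14, (z2 i i : ℝ)) = 527198 := by exact_mod_cast ztr2
  rw [h2]
  norm_num

theorem connected1 :
    (SimpleGraph.fromRel (fun i j : Fin 14 =>
      0 < ((Dm N1) * (Dm N1).transpose) i j)).Connected := by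
  rw [SimpleGraph.connected_iff_exists_forall_reachable]
  refine ⟨0, ?_⟩
  have key : ∀ n : ℕ, ∀ w : Fin 14, (w : ℕ) = n →
      (SimpleGraph.fromRel (fun i j : Fin 14 =>
      0 < ((Dm N1) * (Dm N1).transpose) i j)).Reachable 0 w := by
    intro n
    induction n using Nat.strong_induction_on with
    | _ n ih =>
      intro w hw
      rcases conn1 w with h | ⟨j, hj, hb⟩
      · rw [h]
      · have h1 := ih (j : ℕ) (by rw [← hw]; exact hj) j rfl
        refine h1.trans (SimpleGraph.Adj.reachable ?_)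
        rw [SimpleGraph.fromRel_adj]
        refine ⟨ne_of_lt hj, Or.inr ?_⟩
        rw [Matrix.mul_apply]
        have h2 : ∑ b, (Dm N1) w b * (Dm N1).transpose b j = ∑ b, Dm N1 w b * Dm N1 j b := rfl
        rw [h2, gram1 w j, hb]
        omega
  intro w
  exact key w w rfl

end Pool.Agent.H175R3.Pat
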